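import Pool.Agent.U425.VL.Cur

/-!
# Progressions in level sets, and patterns in algebraic sets
-/

set_option autoImplicit false

open MvPolynomial

namespace Pool.Agent.U425.VL

open Pool.Agent.N684.BK

section

variable {F : Type} [Field F] [Fintype F] {N m : ℕ}

omit [Fintype F] in
theorem span_le {D : ℕ} {S : Set (MvPolynomial (Fin N) F)} (hS : ∀ f ∈ S, f.totalDegree ≤ D) :
    ∀ f ∈ Submodule.span F S, f.totalDegree ≤ D := by
  intro f hf
  have h1 : Submodule.span F S ≤ restrictTotalDegree (Fin N) F D := by
    rw [Submodule.span_le]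
    intro g hg
    exact (mem_restrictTotalDegree (Fin N) D g).2 (hS g hg)
  exact (mem_restrictTotalDegree (Fin N) D f).1 (h1 hf)

omit [Fintype F] in
theorem span_zero {S : Set (MvPolynomial (Fin N) F)} {a : Fin N → F}
    (ha : ∀ f ∈ S, eval a f = 0) : ∀ f ∈ Submodule.span F S, eval a f = 0 := by
  intro f hf
  induction hf using Submodule.span_induction with
  | mem x hx => exact ha x hx
  | zero => exact map_zero _
  | add x y _ _ hx hy => rw [map_add, hx, hy, add_zero]
  | smul c x _ hx => rw [smul_eval, hx, mul_zero]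

/-- **Patterns in algebraic sets.** -/
theorem patterns {D E : ℕ} (hD : 1 ≤ D) (hDq : D ≤ Fintype.card F)
    (S : Set (MvPolynomial (Fin N) F)) (hS : ∀ f ∈ S, f.totalDegree ≤ D) (e : ℕ) :
    ∃ B : Set (Fin N → F), B.ncard * (Fintype.card F ^ 2) ^ e ≤
        (Fintype.card F * D + Fintype.card F - D) ^ e * Fintype.card F ^ N ∧
      ∀ a, (∀ f ∈ S, eval a f = 0) → a ∉ B →
      ∀ (ν κ : Type) [Fintype ν] [Fintype κ] (L : ν → Fin N → MvPolynomial (Fin m) F)
        (G : κ → MvPolynomial (Fin m) F), (∀ v j, (L v j).totalDegree ≤ E) →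
        (∀ v j, eval 0 (L v j) = 0) → (∀ c, eval 0 (G c) = 0) →
        e * Fintype.card ν * (D * E * (D * E + 1)) + 2 * ∑ c, (G c).totalDegree < 2 * m →
        ∃ h : Fin m → F, h ≠ 0 ∧ (∀ v, ∀ t : F, ∀ g ∈ S,
          eval (fun j => a j + eval (fun i => t * h i) (L v j)) g = 0) ∧
          ∀ c, eval h (G c) = 0 := by
  have hI := span_le hS
  have hU : Submodule.span F S ≤ PW F (wo N) D := fun f hf => mem_PW_wo (hI f hf)
  have : Module.Finite F (Submodule.span F S) :=
    Pool.Agent.N136.BK.RCI.fin_sub (wo N) wo_pos D _ hU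
  obtain ⟨f, hf, hB⟩ := select hD hDq (Submodule.span F S) hI e
  refine ⟨BadPt (Submodule.span F S) f, hB, ?_⟩
  intro a haS haB ν κ _ _ L G hL hL0 hG0 hsum
  obtain ⟨h, h0, h1, h2⟩ := pattern hI hf haB (span_zero haS) L hL hL0 G hG0 hsum
  exact ⟨h, h0, fun v t g hg => h1 v t g (Submodule.subset_span hg), h2⟩

end

section

variable {p : ℕ} [Fact p.Prime] {n : ℕ}

/-- the values of a polynomial along a line -/
theorem eval_line (a h : Fin n → ZMod p) (g : MvPolynomial (Fin n) (ZMod p)) {D : ℕ}
    (hg : g.totalDegree ≤ D) (c : ZMod p) :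
    eval (a + c • h) g = eval a g + ∑ i ∈ Finset.range D,
      c ^ (D - i) * eval h (homogeneousComponent (D - i) (sub a X g)) := by
  have h1 : eval (a + c • h) g = eval (c • h) (sub a X g) := by
    rw [eval_sub]
    congr 2
    funext j
    rw [eval_X]
    rfl
  have hdeg : (sub a X g).totalDegree ≤ D := by
    refine (totalDegree_bind_le (E := 1) _ (fun j => ?_) g).trans (by omega)
    refine (totalDegree_add _ _).trans ?_
    rw [totalDegree_C]
    exact max_le (Nat.zero_le _) (totalDegree_X (R := ZMod p) j).le
  have h2 : eval (c • h) (sub a X g) = ∑ i ∈ Finset.range (D + 1),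
      c ^ i * eval h (homogeneousComponent i (sub a X g)) := by
    conv_lhs => rw [← sum_homogeneousComponent (sub a X g)]
    rw [map_sum]
    have h3 : ∀ i, eval (c • h) (homogeneousComponent i (sub a X g)) =
        c ^ i * eval h (homogeneousComponent i (sub a X g)) := by
      intro i
      have h4 := aeval_scale (S := ZMod p)
        (homogeneousComponent_isHomogeneous i (sub a X g)) c h
      have h6 : ∀ (x : Fin n → ZMod p) (q : MvPolynomial (Fin n) (ZMod p)),
          aeval x q = eval x q := fun x q => by
        rw [← MvPolynomial.coe_aeval_eq_eval]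
        rfl
      rw [h6, h6] at h4
      exact h4
    simp only [h3]
    refine Finset.sum_subset (Finset.range_subset_range.2 (by omega)) ?_
    intro i _ hi
    rw [Finset.mem_range, not_lt] at hi
    rw [homogeneousComponent_eq_zero _ _ (by omega), map_zero, mul_zero]
  have h5 : eval h (homogeneousComponent 0 (sub a X g)) = eval a g := by
    rw [homogeneousComponent_zero, eval_C]
    have h2 : coeff 0 (sub a X g) = eval (0 : Fin n → ZMod p) (sub a X g) := by
      have : eval (0 : Fin n → ZMod p) (sub a X g) = constantCoeff (sub a X g) := by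
        rw [← MvPolynomial.eval_zero]
      rw [this]
      rfl
    rw [h2, eval_sub]
    congr 2
    funext j
    rw [eval_X]
    simp
  rw [h1, h2, Finset.sum_range_succ', pow_zero, one_mul, h5, add_comm, ← Finset.sum_range_reflect]
  congr 1
  refine Finset.sum_congr rfl fun i hi => ?_
  rw [Finset.mem_range] at hi
  have : D - 1 - i + 1 = D - i := by omega
  rw [this]

/-- **Progressions in level sets.** Conditions of degrees `D, D - 1, …, D - k + 2` for a progression of
length `k` through `a` in the level set of a polynomial of degree at most `D`. -/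
theorem ap_family {k D : ℕ} (hk : 2 ≤ k) (hkp : k ≤ p) (a : Fin n → ZMod p)
    (g : MvPolynomial (Fin n) (ZMod p)) (hg : g.totalDegree ≤ D) :
    ∃ E : Fin (k - 1) → MvPolynomial (Fin n) (ZMod p),
      (∀ s, (E s).totalDegree ≤ D - (s : ℕ)) ∧ (∀ s, eval 0 (E s) = 0) ∧
      ∀ h : Fin n → ZMod p, (∀ s, eval h (E s) = 0) →
        ∀ j < k, eval (a + (j : ZMod p) • h) g = eval a g := by
  classical
  set M : Polynomial (ZMod p) := ∏ j ∈ Finset.Icc 1 (k - 1),
    (Polynomial.X - Polynomial.C ((j : ZMod p)⁻¹)) with hM
  have hMm : M.Monic := Polynomial.monic_prod_of_monic _ _ fun j _ => Polynomial.monic_X_sub_C _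
  have hMd : M.natDegree = k - 1 := by
    rw [hM, Polynomial.natDegree_prod_of_monic _ _ fun j _ => Polynomial.monic_X_sub_C _]
    simp
  have hM1 : M ≠ 1 := by
    intro h
    rw [h, Polynomial.natDegree_one] at hMd
    omega
  set G : ℕ → MvPolynomial (Fin n) (ZMod p) :=
    fun i => homogeneousComponent i (sub a X g) with hG
  set r : ℕ → Polynomial (ZMod p) := fun i => (Polynomial.X ^ i) %ₘ M with hr
  have hrlt : ∀ i, i < k - 1 → r i = Polynomial.X ^ i := by
    intro i hi
    rw [hr]
    simp only
    rw [Polynomial.modByMonic_eq_self_iff hMm, Polynomial.degree_X_pow,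
      Polynomial.degree_eq_natDegree hMm.ne_zero, hMd]
    exact_mod_cast hi
  have hrdeg : ∀ i, (r i).natDegree < k - 1 := by
    intro i
    have := Polynomial.natDegree_modByMonic_lt (Polynomial.X ^ i) hMm hM1
    rwa [hMd] at this
  have hhom : ∀ i, 0 < i → eval (0 : Fin n → ZMod p) (G i) = 0 := by
    intro i hi
    have h1 := homogeneousComponent_isHomogeneous i (sub a X g)
    have h2 : eval (0 : Fin n → ZMod p) (homogeneousComponent i (sub a X g)) =
        constantCoeff (homogeneousComponent i (sub a X g)) := by
      rw [← MvPolynomial.eval_zero]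
    rw [hG]
    simp only
    rw [h2, MvPolynomial.constantCoeff_eq]
    exact h1.coeff_eq_zero (by simpa using hi.ne)
  refine ⟨fun s => ∑ i ∈ Finset.range D, C ((r i).coeff s) * G (D - i), ?_, ?_, ?_⟩
  · intro s
    refine totalDegree_finsetSum_le fun i hi => ?_
    rw [Finset.mem_range] at hi
    by_cases his : i < (s : ℕ)
    · have h1 : (r i).coeff s = 0 := by
        rw [hrlt i (by omega), Polynomial.coeff_X_pow, if_neg (by omega)]
      rw [h1, map_zero, zero_mul, totalDegree_zero]
      exact Nat.zero_le _
    · refine (totalDegree_mul _ _).trans ?_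
      rw [totalDegree_C, zero_add]
      refine (homogeneousComponent_isHomogeneous (D - i) (sub a X g)).totalDegree_le.trans ?_
      omega
  · intro s
    rw [map_sum]
    refine Finset.sum_eq_zero fun i hi => ?_
    rw [Finset.mem_range] at hi
    rw [map_mul, hhom (D - i) (by omega), mul_zero]
  · intro h hh j hj
    rcases Nat.eq_zero_or_pos j with h0 | h0
    · rw [h0]
      simp
    have hj0 : (j : ZMod p) ≠ 0 := by
      rw [Ne, ZMod.natCast_eq_zero_iff]
      intro hdvd
      exact absurd (Nat.le_of_dvd h0 hdvd) (by omega)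
    rw [eval_line a h g hg]
    have hroot : M.IsRoot ((j : ZMod p)⁻¹) := by
      rw [Polynomial.IsRoot.def, hM, Polynomial.eval_prod]
      refine Finset.prod_eq_zero (i := j) ?_ ?_
      · rw [Finset.mem_Icc]
        omega
      · simp
    have h1 : ∀ i, ((j : ZMod p)⁻¹) ^ i =
        ∑ s : Fin (k - 1), (r i).coeff s * ((j : ZMod p)⁻¹) ^ (s : ℕ) := by
      intro i
      have h2 : (r i).eval ((j : ZMod p)⁻¹) = ((j : ZMod p)⁻¹) ^ i := by
        have h7 := Polynomial.eval₂_modByMonic_eq_self_of_root (f := RingHom.id (ZMod p))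
          (p := Polynomial.X ^ i) (q := M) (x := ((j : ZMod p)⁻¹)) hroot
        rw [Polynomial.eval₂_id, Polynomial.eval₂_id, Polynomial.eval_pow, Polynomial.eval_X] at h7
        exact h7
      rw [← h2, Polynomial.eval_eq_sum_range' (hrdeg i), Finset.sum_range]
    have h3 : ∑ i ∈ Finset.range D, (j : ZMod p) ^ (D - i) *
        eval h (homogeneousComponent (D - i) (sub a X g)) =
        (j : ZMod p) ^ D * ∑ s : Fin (k - 1), ((j : ZMod p)⁻¹) ^ (s : ℕ) *
          eval h (∑ i ∈ Finset.range D, C ((r i).coeff s) * G (D - i)) := by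
      calc ∑ i ∈ Finset.range D, (j : ZMod p) ^ (D - i) *
            eval h (homogeneousComponent (D - i) (sub a X g))
          = ∑ i ∈ Finset.range D, (j : ZMod p) ^ D * (((j : ZMod p)⁻¹) ^ i *
              eval h (G (D - i))) := by
            refine Finset.sum_congr rfl fun i hi => ?_
            rw [Finset.mem_range] at hi
            rw [← mul_assoc]
            congr 1
            have h4 : (j : ZMod p) ^ D = (j : ZMod p) ^ (D - i) * (j : ZMod p) ^ i := by
              rw [← pow_add]
              congr 1
              omega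
            rw [h4, mul_assoc, ← mul_pow, mul_inv_cancel₀ hj0, one_pow, mul_one]
        _ = ∑ i ∈ Finset.range D, (j : ZMod p) ^ D * ((∑ s : Fin (k - 1), (r i).coeff s *
              ((j : ZMod p)⁻¹) ^ (s : ℕ)) * eval h (G (D - i))) := by
            refine Finset.sum_congr rfl fun i _ => ?_
            rw [← h1 i]
        _ = (j : ZMod p) ^ D * ∑ s : Fin (k - 1), ∑ i ∈ Finset.range D, (r i).coeff s *
              ((j : ZMod p)⁻¹) ^ (s : ℕ) * eval h (G (D - i)) := by
            rw [← Finset.mul_sum]
            congr 1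
            rw [Finset.sum_comm]
            refine Finset.sum_congr rfl fun i _ => ?_
            rw [Finset.sum_mul]
        _ = _ := by
            congr 1
            refine Finset.sum_congr rfl fun s _ => ?_
            rw [map_sum, Finset.mul_sum]
            refine Finset.sum_congr rfl fun i _ => ?_
            rw [map_mul, eval_C]
            ring
    rw [h3]
    simp only [hh, mul_zero, Finset.sum_const_zero, add_zero]

end

end Pool.Agent.U425.VL
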