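import Pool.Agent.U425.VL.Sel

/-!
# Curves through the good points
-/

set_option autoImplicit false

open MvPolynomial

namespace Pool.Agent.U425.VL

open Pool.Agent.N684.BK

theorem cw {F : Type} [Field F] [Fintype F] {m : ℕ} {ι : Type} [Fintype ι]
    (G : ι → MvPolynomial (Fin m) F) (h0 : ∀ i, eval 0 (G i) = 0)
    (hd : ∑ i, (G i).totalDegree < m) : ∃ h : Fin m → F, h ≠ 0 ∧ ∀ i, eval h (G i) = 0 := by
  classical
  obtain ⟨p, hp⟩ := CharP.exists F
  have hpp : Fact p.Prime := ⟨CharP.char_is_prime F p⟩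
  have h1 := char_dvd_card_solutions_of_fintype_sum_lt (σ := Fin m) p (f := G) (by simpa using hd)
  by_contra hcon
  push Not at hcon
  have h2 : Fintype.card { x : Fin m → F // ∀ i, eval x (G i) = 0 } = 1 := by
    rw [Fintype.card_eq_one_iff]
    refine ⟨⟨0, h0⟩, ?_⟩
    rintro ⟨x, hx⟩
    by_contra hne
    have hx0 : x ≠ 0 := fun h => hne (Subtype.ext h)
    obtain ⟨i, hi⟩ := hcon x hx0
    exact hi (hx i)
  rw [h2] at h1
  exact hpp.out.one_lt.ne' (Nat.dvd_one.1 h1)

section

variable {R : Type} [CommRing R] {S : Type} [CommRing S] [Algebra R S] {m n : ℕ}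

theorem totalDegree_bind_le {E : ℕ} (g : Fin n → MvPolynomial (Fin m) R)
    (hg : ∀ j, (g j).totalDegree ≤ E) (f : MvPolynomial (Fin n) R) :
    (bind₁ g f).totalDegree ≤ f.totalDegree * E := by
  rw [bind₁, aeval_def, eval₂_eq']
  refine totalDegree_finsetSum_le fun d hd => ?_
  refine (totalDegree_mul _ _).trans ?_
  rw [show (algebraMap R (MvPolynomial (Fin m) R)) (coeff d f) = C (coeff d f) from rfl,
    totalDegree_C, zero_add]
  refine (totalDegree_finsetProd _ _).trans ?_
  calc ∑ i, (g i ^ d i).totalDegree ≤ ∑ i, d i * E := by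
        refine Finset.sum_le_sum fun i _ => ?_
        exact (totalDegree_pow _ _).trans (Nat.mul_le_mul_left _ (hg i))
    _ = (∑ i, d i) * E := (Finset.sum_mul _ _ _).symm
    _ ≤ _ := by
        refine Nat.mul_le_mul_right _ ?_
        have := le_totalDegree hd
        rwa [Finsupp.sum_fintype _ _ (fun _ => rfl)] at this

theorem aeval_scale {i : ℕ} {φ : MvPolynomial (Fin m) R} (hφ : φ.IsHomogeneous i) (r : S)
    (s : Fin m → S) : aeval (fun j => r * s j) φ = r ^ i * aeval s φ := by
  rw [aeval_def, aeval_def, eval₂_eq', eval₂_eq', Finset.mul_sum]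
  refine Finset.sum_congr rfl fun d hd => ?_
  have h1 : ∑ j, d j = i := by
    have := hφ (mem_support_iff.1 hd)
    rw [Finsupp.weight_apply, Finsupp.sum_fintype _ _ (by simp)] at this
    simpa using this
  have h2 : ∏ j, (r * s j) ^ d j = r ^ i * ∏ j, s j ^ d j := by
    simp only [mul_pow]
    rw [Finset.prod_mul_distrib, Finset.prod_pow_eq_pow_sum, h1]
  rw [h2]
  ring

/-- a polynomial along a ray through the origin -/
theorem aeval_ray (G : MvPolynomial (Fin m) R) (h : Fin m → R) :
    aeval (fun j => (Polynomial.X : Polynomial R) * Polynomial.C (h j)) G =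
      ∑ i ∈ Finset.range (G.totalDegree + 1),
        Polynomial.X ^ i * Polynomial.C (eval h (homogeneousComponent i G)) := by
  conv_lhs => rw [← sum_homogeneousComponent G]
  rw [map_sum]
  refine Finset.sum_congr rfl fun i _ => ?_
  rw [aeval_scale (homogeneousComponent_isHomogeneous i G)]
  congr 1
  have h1 := (aeval_algebraMap_apply (Polynomial R) h (homogeneousComponent i G))
  rw [show (algebraMap R (Polynomial R)) = Polynomial.C from rfl] at h1
  have h2 : (aeval h) (homogeneousComponent i G) = eval h (homogeneousComponent i G) := by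
    rw [← MvPolynomial.coe_aeval_eq_eval]
    rfl
  rw [← h2]
  exact h1

end

variable {F : Type} [Field F] {N m : ℕ}

/-- the curve `t ↦ a + L (t h)` -/
noncomputable def cur (a : Fin N → F) (L : Fin N → MvPolynomial (Fin m) F) (h : Fin m → F) :
    Fin N → Polynomial F :=
  fun j => Polynomial.C (a j) +
    aeval (fun i => (Polynomial.X : Polynomial F) * Polynomial.C (h i)) (L j)

/-- the polynomial `h ↦ f (a + L h)` -/
noncomputable def sub (a : Fin N → F) (L : Fin N → MvPolynomial (Fin m) F)
    (f : MvPolynomial (Fin N) F) : MvPolynomial (Fin m) F :=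
  bind₁ (fun j => C (a j) + L j) f

theorem aeval_cur (a : Fin N → F) (L : Fin N → MvPolynomial (Fin m) F) (h : Fin m → F)
    (f : MvPolynomial (Fin N) F) : aeval (cur a L h) f =
      aeval (fun i => (Polynomial.X : Polynomial F) * Polynomial.C (h i)) (sub a L f) := by
  rw [sub, aeval_bind₁]
  congr 2
  funext j
  rw [cur, map_add, aeval_C]
  rfl

theorem eval_sub (a : Fin N → F) (L : Fin N → MvPolynomial (Fin m) F) (h : Fin m → F)
    (f : MvPolynomial (Fin N) F) : eval h (sub a L f) = eval (fun j => a j + eval h (L j)) f := by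
  rw [sub, ← MvPolynomial.coe_aeval_eq_eval, ← MvPolynomial.coe_aeval_eq_eval]
  rw [RingHom.coe_coe, RingHom.coe_coe, aeval_bind₁]
  congr 2
  funext j
  rw [map_add, aeval_C]
  rfl

theorem pe (t : F) (g : Fin m → Polynomial F) (p : MvPolynomial (Fin m) F) :
    Polynomial.eval t (aeval g p) = eval (fun i => (g i).eval t) p := by
  have h1 : Polynomial.eval t (aeval g p) =
      (Polynomial.evalRingHom t) (eval₂ (algebraMap F (Polynomial F)) g p) := rfl
  rw [h1, MvPolynomial.eval₂_comp_left]
  have h2 : (Polynomial.evalRingHom t).comp (algebraMap F (Polynomial F)) = RingHom.id F := by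
    ext x
    simp
  rw [h2]
  rfl

theorem eval_cur (a : Fin N → F) (L : Fin N → MvPolynomial (Fin m) F) (h : Fin m → F) (t : F)
    (j : Fin N) : (cur a L h j).eval t = a j + eval (fun i => t * h i) (L j) := by
  rw [cur, Polynomial.eval_add, Polynomial.eval_C, pe]
  congr 2
  congr 1
  funext i
  rw [Polynomial.eval_mul, Polynomial.eval_X, Polynomial.eval_C]

theorem cur_zero {f : MvPolynomial (Fin N) F} {a : Fin N → F} {L : Fin N → MvPolynomial (Fin m) F}
    {h : Fin m → F} {D E : ℕ} (hf : f.totalDegree ≤ D) (hL : ∀ j, (L j).totalDegree ≤ E)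
    (hL0 : ∀ j, eval 0 (L j) = 0) (ha : eval a f = 0)
    (hh : ∀ i : Fin (D * E), eval h (homogeneousComponent ((i : ℕ) + 1) (sub a L f)) = 0) :
    aeval (cur a L h) f = 0 := by
  rw [aeval_cur, aeval_ray]
  refine Finset.sum_eq_zero fun i hi => ?_
  have hdeg : (sub a L f).totalDegree ≤ D * E := by
    refine (totalDegree_bind_le (E := E) _ (fun j => ?_) f).trans (Nat.mul_le_mul_right _ hf)
    refine (totalDegree_add _ _).trans ?_
    rw [totalDegree_C]
    exact max_le (Nat.zero_le _) (hL j)
  rw [Finset.mem_range] at hi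
  rcases Nat.eq_zero_or_pos i with h0 | h0
  · rw [h0, homogeneousComponent_zero, eval_C]
    have h1 : eval (0 : Fin m → F) (sub a L f) = 0 := by
      rw [eval_sub]
      simp only [hL0, add_zero]
      exact ha
    have h2 : coeff 0 (sub a L f) = eval (0 : Fin m → F) (sub a L f) := by
      have : eval (0 : Fin m → F) (sub a L f) = constantCoeff (sub a L f) := by
        rw [← MvPolynomial.eval_zero]
      rw [this]
      rfl
    rw [h2, h1, map_zero, mul_zero]
  · have h1 := hh ⟨i - 1, by omega⟩
    have h2 : i - 1 + 1 = i := by omega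
    simp only [h2] at h1
    rw [h1, map_zero, mul_zero]

theorem good {I : Submodule F (MvPolynomial (Fin N) F)} {e : ℕ} {f : Fin e → MvPolynomial (Fin N) F}
    {a : Fin N → F} (ha : a ∉ BadPt I f) {L : Fin N → MvPolynomial (Fin m) F}
    (hL0 : ∀ j, eval 0 (L j) = 0) {h : Fin m → F} (hz : ∀ i, aeval (cur a L h) (f i) = 0)
    {g : MvPolynomial (Fin N) F} (hg : g ∈ I) (t : F) :
    eval (fun j => a j + eval (fun i => t * h i) (L j)) g = 0 := by
  classical
  have hQ : (RingHom.ker (aeval (cur a L h) : MvPolynomial (Fin N) F →ₐ[F] Polynomial F)).IsPrime :=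
    RingHom.ker_isPrime _
  have key : ∀ (t : F) (p : MvPolynomial (Fin N) F), aeval (cur a L h) p = 0 →
      eval (fun j => a j + eval (fun i => t * h i) (L j)) p = 0 := by
    intro t p hp
    have h1 := pe t (cur a L h) p
    rw [hp, Polynomial.eval_zero] at h1
    rw [h1]
    congr 2
    funext j
    exact (eval_cur a L h t j).symm
  have h1 : (I : Set (MvPolynomial (Fin N) F)) ⊆
      (RingHom.ker (aeval (cur a L h) : MvPolynomial (Fin N) F →ₐ[F] Polynomial F) :
        Ideal (MvPolynomial (Fin N) F)) := by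
    by_contra hcon
    apply ha
    refine ⟨_, hQ, fun i => ?_, hcon, ?_⟩
    · rw [RingHom.mem_ker]
      exact hz i
    · intro p hp
      have h2 := key 0 p (by rwa [RingHom.mem_ker] at hp)
      have h3 : (fun j => a j + eval (fun i => (0 : F) * h i) (L j)) = a := by
        funext j
        have : (fun i => (0 : F) * h i) = 0 := by
          funext i
          simp
        rw [this, hL0, add_zero]
      rwa [h3] at h2
  have h2 := h1 hg
  exact key t g h2

variable [Fintype F]

omit [Fintype F] in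
theorem sum_fin_succ (n : ℕ) : 2 * ∑ i : Fin n, ((i : ℕ) + 1) = n * (n + 1) := by
  induction n with
  | zero => simp
  | succ n ih =>
    rw [Fin.sum_univ_castSucc, mul_add]
    simp only [Fin.val_castSucc, Fin.val_last]
    rw [ih]
    ring

/-- **Patterns through the good points.** -/
theorem pattern {D E e : ℕ} {I : Submodule F (MvPolynomial (Fin N) F)}
    (hI : ∀ f ∈ I, f.totalDegree ≤ D) {f : Fin e → MvPolynomial (Fin N) F} (hf : ∀ i, f i ∈ I)
    {a : Fin N → F} (ha : a ∉ BadPt I f) (haI : ∀ g ∈ I, eval a g = 0) {ν κ : Type} [Fintype ν]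
    [Fintype κ] (L : ν → Fin N → MvPolynomial (Fin m) F) (hL : ∀ v j, (L v j).totalDegree ≤ E)
    (hL0 : ∀ v j, eval 0 (L v j) = 0) (G : κ → MvPolynomial (Fin m) F)
    (hG0 : ∀ c, eval 0 (G c) = 0)
    (hsum : e * Fintype.card ν * (D * E * (D * E + 1)) + 2 * ∑ c, (G c).totalDegree < 2 * m) :
    ∃ h : Fin m → F, h ≠ 0 ∧ (∀ v, ∀ t : F, ∀ g ∈ I,
      eval (fun j => a j + eval (fun i => t * h i) (L v j)) g = 0) ∧ ∀ c, eval h (G c) = 0 := by
  classical
  set H : (Fin e × ν × Fin (D * E)) ⊕ κ → MvPolynomial (Fin m) F :=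
    Sum.elim (fun x => homogeneousComponent ((x.2.2 : ℕ) + 1) (sub a (L x.2.1) (f x.1))) G with hH
  obtain ⟨h, h0, hz⟩ := cw H (by
    rintro (⟨i, v, j⟩ | c)
    · simp only [hH, Sum.elim_inl]
      have h1 := homogeneousComponent_isHomogeneous ((j : ℕ) + 1) (sub a (L v) (f i))
      have h2 : eval (0 : Fin m → F) (homogeneousComponent ((j : ℕ) + 1) (sub a (L v) (f i))) =
          constantCoeff (homogeneousComponent ((j : ℕ) + 1) (sub a (L v) (f i))) := by
        rw [← MvPolynomial.eval_zero]
      rw [h2]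
      rw [MvPolynomial.constantCoeff_eq]
      exact h1.coeff_eq_zero (by simp)
    · exact hG0 c) (by
    rw [Fintype.sum_sum_type]
    simp only [hH, Sum.elim_inl, Sum.elim_inr]
    have h1 : ∑ x : Fin e × ν × Fin (D * E),
        (homogeneousComponent ((x.2.2 : ℕ) + 1) (sub a (L x.2.1) (f x.1))).totalDegree ≤
        ∑ x : Fin e × ν × Fin (D * E), ((x.2.2 : ℕ) + 1) :=
      Finset.sum_le_sum fun x _ =>
        (homogeneousComponent_isHomogeneous ((x.2.2 : ℕ) + 1) _).totalDegree_le
    have h2 : 2 * ∑ x : Fin e × ν × Fin (D * E), ((x.2.2 : ℕ) + 1) =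
        e * Fintype.card ν * (D * E * (D * E + 1)) := by
      rw [Fintype.sum_prod_type]
      simp only [Fintype.sum_prod_type, Finset.sum_const, Finset.card_univ, Fintype.card_fin,
        smul_eq_mul]
      have := sum_fin_succ (D * E)
      calc _ = e * Fintype.card ν * (2 * ∑ i : Fin (D * E), ((i : ℕ) + 1)) := by ring
        _ = _ := by rw [this]
    omega)
  refine ⟨h, h0, ?_, fun c => hz (Sum.inr c)⟩
  intro v t g hg
  refine good ha (hL0 v) (fun i => ?_) hg t
  exact cur_zero (hI _ (hf i)) (hL v) (hL0 v) (haI _ (hf i)) (fun j => hz (Sum.inl (i, v, j)))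

end Pool.Agent.U425.VL
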