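import Mathlib

/-!
# Layered norm forms as polynomials

The construction is that of `Pool.Agent.H289R2.NormLayer` (starting library), with polynomials.
-/

set_option autoImplicit false

open Polynomial

namespace Pool.Agent.U425.VL

section norm

variable (K : Type) [Field K] [Fintype K]

omit [Fintype K] in
lemma det_totalDegree_le {j m : ℕ} (M : Matrix (Fin m) (Fin m) (MvPolynomial (Fin j) K))
    (hM : ∀ a b, (M a b).totalDegree ≤ 1) : M.det.totalDegree ≤ m := by
  rw [Matrix.det_apply]
  refine MvPolynomial.totalDegree_finsetSum_le fun σ _ => ?_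
  refine (MvPolynomial.totalDegree_smul_le _ _).trans ?_
  refine (MvPolynomial.totalDegree_finsetProd _ _).trans ?_
  refine (Finset.sum_le_sum fun i _ => hM _ _).trans ?_
  simp

lemma norm_form (j : ℕ) (hj : j ≠ 0) : ∃ P : MvPolynomial (Fin j) K, P.totalDegree ≤ j ∧
    ∀ x u : Fin j → K, ∃ g : K[X], g.natDegree ≤ j ∧ (u ≠ 0 → g.coeff j ≠ 0) ∧
      (u = 0 → g = C (MvPolynomial.eval x P)) ∧
      ∀ s : K, MvPolynomial.eval (x + s • u) P = g.eval s := by
  classical
  obtain ⟨p, hp⟩ := CharP.exists K
  have hpp : Fact p.Prime := ⟨CharP.char_is_prime K p⟩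
  have hj' : NeZero j := ⟨hj⟩
  let L := FiniteField.Extension K p j
  let b : Module.Basis (Fin j) K L :=
    Module.finBasisOfFinrankEq K L (FiniteField.finrank_extension K p j)
  let φ : (Fin j → K) →ₗ[K] Matrix (Fin j) (Fin j) K :=
    (Algebra.leftMulMatrix b).toLinearMap.comp b.equivFun.symm.toLinearMap
  have hdet : ∀ u : Fin j → K, u ≠ 0 → (φ u).det ≠ 0 := by
    intro u hu
    have h1 : (φ u).det = Algebra.norm K (b.equivFun.symm u) := by
      rw [Algebra.norm_eq_matrix_det b]
      rfl
    rw [h1, Algebra.norm_ne_zero_iff]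
    exact (LinearEquiv.map_ne_zero_iff b.equivFun.symm).mpr hu
  let P : MvPolynomial (Fin j) K := Matrix.det (Matrix.of fun a c =>
    ∑ i, MvPolynomial.C (φ (Pi.single i 1) a c) * MvPolynomial.X i)
  have hP : ∀ x, MvPolynomial.eval x P = (φ x).det := by
    intro x
    have h1 : MvPolynomial.eval x P = Matrix.det ((MvPolynomial.eval x).mapMatrix
        (Matrix.of fun a c =>
          ∑ i, MvPolynomial.C (φ (Pi.single i 1) a c) * MvPolynomial.X i)) := by
      rw [← RingHom.map_det]
    rw [h1]
    congr 1
    ext a c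
    rw [RingHom.mapMatrix_apply, Matrix.map_apply, Matrix.of_apply, map_sum]
    have h2 : x = ∑ i, x i • (Pi.single i 1 : Fin j → K) := by
      funext l
      simp [Finset.sum_apply, Pi.single_apply]
    conv_rhs => rw [h2, map_sum, Matrix.sum_apply]
    refine Finset.sum_congr rfl fun i _ => ?_
    rw [map_mul, MvPolynomial.eval_C, MvPolynomial.eval_X, map_smul, Matrix.smul_apply,
      smul_eq_mul, mul_comm]
  refine ⟨P, ?_, ?_⟩
  · refine det_totalDegree_le K _ fun a c => ?_
    rw [Matrix.of_apply]
    refine MvPolynomial.totalDegree_finsetSum_le fun i _ => ?_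
    refine (MvPolynomial.totalDegree_mul _ _).trans ?_
    rw [MvPolynomial.totalDegree_C, zero_add, MvPolynomial.totalDegree_X]
  intro x u
  by_cases hu : u = 0
  · refine ⟨C ((φ x).det), ?_, ?_, ?_, ?_⟩
    · rw [natDegree_C]
      exact Nat.zero_le _
    · intro h
      exact absurd hu h
    · intro _
      rw [hP]
    · intro s
      rw [hP]
      simp [hu]
  · refine ⟨Matrix.det ((X : K[X]) • (φ u).map C + (φ x).map C), ?_, ?_, ?_, ?_⟩
    · have := natDegree_det_X_add_C_le (φ u) (φ x)
      simpa using this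
    · intro _
      have := coeff_det_X_add_C_card (φ u) (φ x)
      rw [Fintype.card_fin] at this
      rw [this]
      exact hdet u hu
    · intro h
      exact absurd h hu
    · intro s
      have h1 : eval s (Matrix.det ((X : K[X]) • (φ u).map C + (φ x).map C)) =
          Matrix.det ((evalRingHom s).mapMatrix ((X : K[X]) • (φ u).map C + (φ x).map C)) := by
        rw [← RingHom.map_det]
        rfl
      rw [h1, hP]
      simp only [map_add, map_smul]
      congr 1
      ext a c
      simp only [RingHom.mapMatrix_apply, Matrix.add_apply, Matrix.map_apply, Matrix.smul_apply,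
        smul_eq_mul, coe_evalRingHom, eval_mul, eval_X, eval_C]
      ring

/-- nonconstant of degree at most `d` along all lines -/
def NonCst {n : ℕ} (d : ℕ) (P : MvPolynomial (Fin n) K) : Prop :=
  ∀ x u : Fin n → K, u ≠ 0 →
    ∃ g : K[X], 1 ≤ g.natDegree ∧ g.natDegree ≤ d ∧
      ∀ s : K, MvPolynomial.eval (x + s • u) P = g.eval s

lemma layer (d : ℕ) : ∃ D : ℕ, 2 * D = d * (d + 1) ∧ ∃ P : MvPolynomial (Fin D) K,
    P.totalDegree ≤ d ∧ NonCst K d P := by
  induction d with
  | zero =>
    refine ⟨0, rfl, 0, by simp, ?_⟩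
    intro x u hu
    exfalso
    apply hu
    funext i
    exact Fin.elim0 i
  | succ d ih =>
    obtain ⟨D, hD, F, hFd, hF⟩ := ih
    obtain ⟨N, hNd, hN⟩ := norm_form K (d + 1) (Nat.succ_ne_zero d)
    refine ⟨D + (d + 1), by linarith [hD, mul_comm d (d + 1)],
      MvPolynomial.rename (Fin.castAdd (d + 1)) F + MvPolynomial.rename (Fin.natAdd D) N,
      ?_, ?_⟩
    · refine (MvPolynomial.totalDegree_add _ _).trans (max_le ?_ ?_)
      · exact (MvPolynomial.totalDegree_rename_le _ _).trans (by omega)
      · exact (MvPolynomial.totalDegree_rename_le _ _).trans hNd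
    intro x u hu
    have hev : ∀ y : Fin (D + (d + 1)) → K, MvPolynomial.eval y
        (MvPolynomial.rename (Fin.castAdd (d + 1)) F + MvPolynomial.rename (Fin.natAdd D) N) =
        MvPolynomial.eval (fun i => y (Fin.castAdd (d + 1) i)) F +
        MvPolynomial.eval (fun i => y (Fin.natAdd D i)) N := by
      intro y
      rw [map_add, MvPolynomial.eval_rename, MvPolynomial.eval_rename]
      rfl
    obtain ⟨g, hg1, hg2, hg3, hg4⟩ := hN (fun i => x (Fin.natAdd D i))
      (fun i => u (Fin.natAdd D i))
    by_cases hv : (fun i => u (Fin.castAdd (d + 1) i)) = (0 : Fin D → K)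
    · have hw : (fun i => u (Fin.natAdd D i)) ≠ (0 : Fin (d + 1) → K) := by
        intro hw
        apply hu
        funext i
        refine Fin.addCases (fun i => ?_) (fun i => ?_) i
        · exact congrFun hv i
        · exact congrFun hw i
      have hc := hg2 hw
      have hdeg : g.natDegree = d + 1 := le_antisymm hg1 (le_natDegree_of_ne_zero hc)
      refine ⟨C (MvPolynomial.eval (fun i => x (Fin.castAdd (d + 1) i)) F) + g, ?_, ?_, ?_⟩
      · rw [natDegree_C_add, hdeg]
        omega
      · rw [natDegree_C_add, hdeg]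
      · intro s
        have h1 : (fun i => (x + s • u) (Fin.castAdd (d + 1) i)) =
            (fun i => x (Fin.castAdd (d + 1) i)) := by
          funext i
          have := congrFun hv i
          simp only [Pi.zero_apply] at this
          simp [this]
        have h2 : (fun i => (x + s • u) (Fin.natAdd D i)) =
            (fun i => x (Fin.natAdd D i)) + s • (fun i => u (Fin.natAdd D i)) := by
          funext i
          simp
        rw [hev, h1, h2, hg4 s, eval_add, eval_C]
    · obtain ⟨f, hf1, hf2, hf3⟩ := hF (fun i => x (Fin.castAdd (d + 1) i))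
        (fun i => u (Fin.castAdd (d + 1) i)) hv
      refine ⟨f + g, ?_, ?_, ?_⟩
      · by_cases hw : (fun i => u (Fin.natAdd D i)) = (0 : Fin (d + 1) → K)
        · rw [hg3 hw, natDegree_add_C]
          exact hf1
        · have hc := hg2 hw
          have hfc : f.coeff (d + 1) = 0 := coeff_eq_zero_of_natDegree_lt (by omega)
          have : (f + g).coeff (d + 1) ≠ 0 := by
            rw [coeff_add, hfc, zero_add]
            exact hc
          have := le_natDegree_of_ne_zero this
          omega
      · exact (natDegree_add_le _ _).trans (max_le (by omega) hg1)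
      · intro s
        have h1 : (fun i => (x + s • u) (Fin.castAdd (d + 1) i)) =
            (fun i => x (Fin.castAdd (d + 1) i)) + s • (fun i => u (Fin.castAdd (d + 1) i)) := by
          funext i
          simp
        have h2 : (fun i => (x + s • u) (Fin.natAdd D i)) =
            (fun i => x (Fin.natAdd D i)) + s • (fun i => u (Fin.natAdd D i)) := by
          funext i
          simp
        rw [hev, h1, h2, hf3 s, hg4 s, eval_add]

end norm

section blocks

variable {K : Type} [Field K] [Fintype K] [DecidableEq K]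

/-- the common zeros of the polynomials `Q i` -/
noncomputable def zs {n r : ℕ} (Q : Fin r → MvPolynomial (Fin n) K) : Finset (Fin n → K) :=
  Finset.univ.filter (fun x => ∀ i, MvPolynomial.eval x (Q i) = 0)

lemma mem_zs {n r : ℕ} {Q : Fin r → MvPolynomial (Fin n) K} {x : Fin n → K} :
    x ∈ zs Q ↔ ∀ i, MvPolynomial.eval x (Q i) = 0 := by
  simp [zs]

variable (K) in
/-- `r` polynomials of degree at most `d` in `n` variables with at least `q ^ (n - r)` common zeros, at
most `d` of them on each line -/
def Blk (d n r : ℕ) : Prop :=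
  ∃ Q : Fin r → MvPolynomial (Fin n) K, (∀ i, (Q i).totalDegree ≤ d) ∧
    Fintype.card K ^ (n - r) ≤ (zs Q).card ∧
    ∀ x u : Fin n → K, u ≠ 0 → ∀ T : Finset K, (∀ s ∈ T, x + s • u ∈ zs Q) → T.card ≤ d

lemma blk_zero (d : ℕ) : Blk K d 0 0 := by
  refine ⟨fun i => i.elim0, fun i => i.elim0, ?_, ?_⟩
  · have : (zs (fun i : Fin 0 => (i.elim0 : MvPolynomial (Fin 0) K))).Nonempty :=
      ⟨0, mem_zs.2 fun i => i.elim0⟩
    simpa using this.card_pos
  · intro x u hu
    exact absurd (Subsingleton.elim u 0) hu

lemma blk_prod {d n₁ r₁ n₂ r₂ : ℕ} (h₁ : Blk K d n₁ r₁) (h₂ : Blk K d n₂ r₂) (hr₁ : r₁ ≤ n₁)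
    (hr₂ : r₂ ≤ n₂) : Blk K d (n₁ + n₂) (r₁ + r₂) := by
  obtain ⟨Q₁, hd₁, hc₁, hl₁⟩ := h₁
  obtain ⟨Q₂, hd₂, hc₂, hl₂⟩ := h₂
  set Q : Fin (r₁ + r₂) → MvPolynomial (Fin (n₁ + n₂)) K :=
    Fin.append (fun i => MvPolynomial.rename (Fin.castAdd n₂) (Q₁ i))
      (fun i => MvPolynomial.rename (Fin.natAdd n₁) (Q₂ i)) with hQ
  have hmem : ∀ x : Fin (n₁ + n₂) → K, x ∈ zs Q ↔
      (fun i => x (Fin.castAdd n₂ i)) ∈ zs Q₁ ∧ (fun i => x (Fin.natAdd n₁ i)) ∈ zs Q₂ := by
    intro x
    rw [mem_zs, mem_zs, mem_zs]
    constructor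
    · intro h
      refine ⟨fun i => ?_, fun i => ?_⟩
      · have := h (Fin.castAdd r₂ i)
        rw [hQ, Fin.append_left, MvPolynomial.eval_rename] at this
        exact this
      · have := h (Fin.natAdd r₁ i)
        rw [hQ, Fin.append_right, MvPolynomial.eval_rename] at this
        exact this
    · rintro ⟨h1, h2⟩ i
      refine Fin.addCases (fun i => ?_) (fun i => ?_) i
      · rw [hQ, Fin.append_left, MvPolynomial.eval_rename]
        exact h1 i
      · rw [hQ, Fin.append_right, MvPolynomial.eval_rename]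
        exact h2 i
  refine ⟨Q, ?_, ?_, ?_⟩
  · intro i
    refine Fin.addCases (fun i => ?_) (fun i => ?_) i
    · rw [hQ, Fin.append_left]
      exact (MvPolynomial.totalDegree_rename_le _ _).trans (hd₁ i)
    · rw [hQ, Fin.append_right]
      exact (MvPolynomial.totalDegree_rename_le _ _).trans (hd₂ i)
  · have h1 : (zs Q₁ ×ˢ zs Q₂).card ≤ (zs Q).card := by
      refine Finset.card_le_card_of_injOn
        (fun y : (Fin n₁ → K) × (Fin n₂ → K) => (Fin.append y.1 y.2 : Fin (n₁ + n₂) → K)) ?_ ?_
      · rintro ⟨y₁, y₂⟩ hy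
        rw [Finset.coe_product, Set.mem_prod] at hy
        rw [Finset.mem_coe, hmem]
        refine ⟨?_, ?_⟩
        · have : (fun i => (Fin.append y₁ y₂ : Fin (n₁ + n₂) → K) (Fin.castAdd n₂ i)) = y₁ := by
            funext i
            rw [Fin.append_left]
          rw [this]
          exact hy.1
        · have : (fun i => (Fin.append y₁ y₂ : Fin (n₁ + n₂) → K) (Fin.natAdd n₁ i)) = y₂ := by
            funext i
            rw [Fin.append_right]
          rw [this]
          exact hy.2
      · rintro ⟨y₁, y₂⟩ _ ⟨z₁, z₂⟩ _ h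
        simp only at h
        have h1 : y₁ = z₁ := by
          funext i
          have := congrFun h (Fin.castAdd n₂ i)
          rwa [Fin.append_left, Fin.append_left] at this
        have h2 : y₂ = z₂ := by
          funext i
          have := congrFun h (Fin.natAdd n₁ i)
          rwa [Fin.append_right, Fin.append_right] at this
        rw [h1, h2]
    calc Fintype.card K ^ (n₁ + n₂ - (r₁ + r₂))
        = Fintype.card K ^ (n₁ - r₁) * Fintype.card K ^ (n₂ - r₂) := by
          rw [← pow_add]
          congr 1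
          omega
      _ ≤ (zs Q₁).card * (zs Q₂).card := Nat.mul_le_mul hc₁ hc₂
      _ = (zs Q₁ ×ˢ zs Q₂).card := (Finset.card_product _ _).symm
      _ ≤ _ := h1
  · intro x u hu T hT
    by_cases hv : (fun i => u (Fin.castAdd n₂ i)) = (0 : Fin n₁ → K)
    · have hw : (fun i => u (Fin.natAdd n₁ i)) ≠ (0 : Fin n₂ → K) := by
        intro hw
        apply hu
        funext i
        refine Fin.addCases (fun i => ?_) (fun i => ?_) i
        · exact congrFun hv i
        · exact congrFun hw i
      exact hl₂ (fun i => x (Fin.natAdd n₁ i)) _ hw T fun s hs => ((hmem _).1 (hT s hs)).2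
    · exact hl₁ (fun i => x (Fin.castAdd n₂ i)) _ hv T fun s hs => ((hmem _).1 (hT s hs)).1

lemma blk_small {d D n : ℕ} (hn : 1 ≤ n) (hnD : n ≤ D) (P : MvPolynomial (Fin D) K)
    (hPd : P.totalDegree ≤ d) (hP : NonCst K d P) : Blk K d n 1 := by
  classical
  set ext : (Fin n → K) → Fin D → K := fun x i => if h : (i : ℕ) < n then x ⟨i, h⟩ else 0 with hext
  set P' : MvPolynomial (Fin n) K := MvPolynomial.bind₁
    (fun i : Fin D => if h : (i : ℕ) < n then MvPolynomial.X ⟨i, h⟩ else 0) P with hP'
  have hev : ∀ x, MvPolynomial.eval x P' = MvPolynomial.eval (ext x) P := by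
    intro x
    rw [hP', ← MvPolynomial.coe_aeval_eq_eval, ← MvPolynomial.coe_aeval_eq_eval]
    rw [RingHom.coe_coe, RingHom.coe_coe, MvPolynomial.aeval_bind₁]
    congr 2
    funext i
    rw [hext]
    by_cases h : (i : ℕ) < n
    · simp [h]
    · simp [h]
  have hdeg : P'.totalDegree ≤ d := by
    have h1 : P'.totalDegree ≤ P.totalDegree := by
      rw [hP', MvPolynomial.bind₁, MvPolynomial.aeval_def, MvPolynomial.eval₂_eq']
      refine MvPolynomial.totalDegree_finsetSum_le fun m hm => ?_
      refine (MvPolynomial.totalDegree_mul _ _).trans ?_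
      rw [show (algebraMap K (MvPolynomial (Fin n) K)) (MvPolynomial.coeff m P) =
        MvPolynomial.C (MvPolynomial.coeff m P) from rfl, MvPolynomial.totalDegree_C, zero_add]
      refine (MvPolynomial.totalDegree_finsetProd _ _).trans ?_
      have h2 : ∑ i, m i ≤ P.totalDegree := by
        have := MvPolynomial.le_totalDegree hm
        rwa [Finsupp.sum_fintype _ _ (fun _ => rfl)] at this
      refine le_trans (Finset.sum_le_sum fun i _ => ?_) h2
      refine (MvPolynomial.totalDegree_pow _ _).trans ?_
      by_cases h : (i : ℕ) < n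
      · simp [h]
      · simp [h]
    exact h1.trans hPd
  have hadd : ∀ (x u : Fin n → K) (s : K), ext (x + s • u) = ext x + s • ext u := by
    intro x u s
    funext i
    rw [hext]
    by_cases h : (i : ℕ) < n
    · simp [h]
    · simp [h]
  have hne : ∀ u : Fin n → K, u ≠ 0 → ext u ≠ 0 := by
    intro u hu h
    apply hu
    funext i
    have h1 := congrFun h ⟨i, by omega⟩
    rw [hext] at h1
    simpa using h1
  have hcard : (Finset.univ : Finset K).card * Fintype.card K ^ (n - 1) ≤
      (Finset.univ : Finset (Fin n → K)).card := by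
    rw [Finset.card_univ, Finset.card_univ, Fintype.card_fun, Fintype.card_fin, ← pow_succ']
    apply le_of_eq
    congr 1
    omega
  obtain ⟨c, _, hc⟩ := Finset.exists_le_card_fiber_of_mul_le_card_of_maps_to
    (f := fun x => MvPolynomial.eval x P') (s := Finset.univ) (t := Finset.univ)
    (fun a _ => Finset.mem_univ _) Finset.univ_nonempty hcard
  have hmem : ∀ x, x ∈ zs (fun _ : Fin 1 => P' - MvPolynomial.C c) ↔
      MvPolynomial.eval x P' = c := by
    intro x
    rw [mem_zs]
    simp only [map_sub, MvPolynomial.eval_C, sub_eq_zero]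
    exact ⟨fun h => h 0, fun h _ => h⟩
  refine ⟨fun _ => P' - MvPolynomial.C c, fun _ => ?_, ?_, ?_⟩
  · refine (MvPolynomial.totalDegree_sub _ _).trans ?_
    rw [MvPolynomial.totalDegree_C]
    exact max_le hdeg (Nat.zero_le _)
  · refine hc.trans (Finset.card_le_card ?_)
    intro x hx
    rw [Finset.mem_filter] at hx
    exact (hmem x).2 hx.2
  · intro x u hu T hT
    obtain ⟨g, hg1, hg2, hg3⟩ := hP (ext x) (ext u) (hne u hu)
    have hgc : g - C c ≠ 0 := by
      intro h
      have : g = C c := sub_eq_zero.mp h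
      rw [this, natDegree_C] at hg1
      omega
    have hsub : T ⊆ (g - C c).roots.toFinset := by
      intro s hs
      have h1 := (hmem _).1 (hT s hs)
      rw [hev, hadd, hg3 s] at h1
      rw [Multiset.mem_toFinset, mem_roots hgc, IsRoot.def, eval_sub, eval_C, h1, sub_self]
    calc T.card ≤ (g - C c).roots.toFinset.card := Finset.card_le_card hsub
      _ ≤ (g - C c).roots.card := Multiset.toFinset_card_le _
      _ ≤ (g - C c).natDegree := card_roots' _
      _ = g.natDegree := natDegree_sub_C
      _ ≤ d := hg2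

/-- `⌈2 n / (d (d + 1))⌉` -/
def ce (d n : ℕ) : ℕ := (2 * n + d * (d + 1) - 1) / (d * (d + 1))

lemma ce_spec {d : ℕ} (hd : 1 ≤ d) (n : ℕ) :
    2 * n ≤ ce d n * (d * (d + 1)) ∧ ∀ e, 2 * n ≤ e * (d * (d + 1)) → ce d n ≤ e := by
  have hpos : 0 < d * (d + 1) := by positivity
  unfold ce
  constructor
  · have h1 := Nat.div_add_mod (2 * n + d * (d + 1) - 1) (d * (d + 1))
    have h2 := Nat.mod_lt (2 * n + d * (d + 1) - 1) hpos
    have h3 : (2 * n + d * (d + 1) - 1) / (d * (d + 1)) * (d * (d + 1)) =
      d * (d + 1) * ((2 * n + d * (d + 1) - 1) / (d * (d + 1))) := mul_comm _ _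
    omega
  · intro e he
    rw [← Nat.lt_succ_iff, Nat.div_lt_iff_lt_mul hpos]
    have : (e + 1) * (d * (d + 1)) = e * (d * (d + 1)) + d * (d + 1) := by ring
    rw [Nat.succ_eq_add_one, this]
    omega

lemma ce_le {d : ℕ} (hd : 1 ≤ d) (n : ℕ) : ce d n ≤ n := by
  refine (ce_spec hd n).2 n ?_
  have h1 : 1 * 2 ≤ d * (d + 1) := Nat.mul_le_mul hd (by omega)
  nlinarith

variable (K) in
theorem blk (d : ℕ) (hd : 1 ≤ d) (n : ℕ) : Blk K d n (ce d n) := by
  obtain ⟨D, hD, P, hPd, hP⟩ := layer K d
  have hD1 : 1 ≤ D := by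
    have h1 : 1 * 2 ≤ d * (d + 1) := Nat.mul_le_mul hd (by omega)
    omega
  have hce : ∀ n, ce d n = (n + D - 1) / D := by
    intro n
    unfold ce
    rw [← hD]
    have h1 : 2 * n + 2 * D - 1 = 2 * (n + D - 1) + 1 := by omega
    rw [h1, ← Nat.div_div_eq_div_mul]
    congr 1
    omega
  induction n using Nat.strong_induction_on with
  | _ n ih =>
    rcases Nat.eq_zero_or_pos n with h0 | h0
    · subst h0
      have : ce d 0 = 0 := by
        rw [hce]
        exact Nat.div_eq_of_lt (by omega)
      rw [this]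
      exact blk_zero d
    · by_cases hn : n ≤ D
      · have h1 : ce d n = 1 := by
          rw [hce]
          have h2 : n + D - 1 = (n - 1) + 1 * D := by omega
          rw [h2, Nat.add_mul_div_right _ _ (by omega), Nat.div_eq_of_lt (by omega)]
        rw [h1]
        exact blk_small h0 hn P hPd hP
      · have h1 := ih (n - D) (by omega)
        have h2 : Blk K d D 1 := blk_small hD1 le_rfl P hPd hP
        have h3 := blk_prod h1 h2 (ce_le hd _) hD1
        have h4 : n - D + D = n := by omega
        have h5 : ce d (n - D) + 1 = ce d n := by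
          rw [hce, hce]
          have h6 : n + D - 1 = (n - D + D - 1) + 1 * D := by omega
          rw [h6, Nat.add_mul_div_right _ _ (by omega)]
        rwa [h4, h5] at h3

end blocks

end Pool.Agent.U425.VL
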