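import Pool.Agent.U425.VL.AP
import Pool.Agent.U425.VL.NF

/-!
# Progression-free algebraic sets in `F_p^n`
-/

set_option autoImplicit false

open MvPolynomial Finset

namespace Pool.Agent.U425.VL

/-- `A ⊆ F_p^n` contains no nontrivial `k`-term progression `x, x + y, …, x + (k - 1) y`, `y ≠ 0`. -/
def APFree (k p n : ℕ) (A : Set (Fin n → ZMod p)) : Prop :=
  ∀ x y : Fin n → ZMod p, (∀ i : ℕ, i < k → x + i • y ∈ A) → y = 0

/-- The set of common zeros in `F_p^n` of a set `S` of polynomials. -/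
def zeros {p n : ℕ} (S : Set (MvPolynomial (Fin n) (ZMod p))) : Set (Fin n → ZMod p) :=
  {x | ∀ f ∈ S, eval x f = 0}

/-- The largest size of a subset of `F_p^n` without nontrivial `k`-term progressions which is the set
of common zeros of some (finite or infinite) set of polynomials of degree at most `d`. -/
noncomputable def rAlg (k d p n : ℕ) : ℕ :=
  sSup {m | ∃ S : Set (MvPolynomial (Fin n) (ZMod p)), (∀ f ∈ S, f.totalDegree ≤ d) ∧
    APFree k p n (zeros S) ∧ (zeros S).ncard = m}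

variable {p : ℕ} [Fact p.Prime] {n : ℕ}

theorem lines {d e : ℕ} (hd : 1 ≤ d) (hdp : d ≤ p) (he : e * (d * (d + 1)) < 2 * n)
    (S : Set (MvPolynomial (Fin n) (ZMod p))) (hS : ∀ f ∈ S, f.totalDegree ≤ d) :
    {x | x ∈ zeros S ∧ ∀ y : Fin n → ZMod p, y ≠ 0 → ∃ t : ZMod p, x + t • y ∉ zeros S}.ncard *
      p ^ (2 * e) ≤ (p * d + p - d) ^ e * p ^ n := by
  classical
  obtain ⟨B, hB, hpat⟩ := patterns (m := n) (E := 1) hd (by rwa [ZMod.card]) S hS e
  rw [ZMod.card, ← pow_mul] at hB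
  refine le_trans (Nat.mul_le_mul_right _ (Set.ncard_le_ncard ?_ (Set.toFinite _))) hB
  rintro a ⟨haS, ha⟩
  by_contra haB
  obtain ⟨h, h0, h1, -⟩ := hpat a haS haB Unit Empty (fun _ j => X j) (fun c => c.elim)
    (fun _ j => (totalDegree_X j).le) (fun _ j => by rw [eval_X]; rfl) (fun c => c.elim)
    (by
      rw [Fintype.card_unit, Finset.univ_eq_empty, Finset.sum_empty, mul_one]
      simpa using he)
  obtain ⟨t, ht⟩ := ha h h0
  apply ht
  intro f hf
  have h2 := h1 () t f hf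
  simp only [eval_X] at h2
  exact h2

theorem unions {k d e T : ℕ} (hk : 2 ≤ k) (hkp : k ≤ p) (hd : 1 ≤ d) (hdp : d ≤ p)
    (r : Fin T → ℕ) (S : Fin T → Set (MvPolynomial (Fin n) (ZMod p)))
    (g : ∀ i, Fin (r i) → MvPolynomial (Fin n) (ZMod p)) (C : ∀ i, Set (Fin (r i) → ZMod p))
    (hS : ∀ i, ∀ f ∈ S i, f.totalDegree ≤ d)
    (hsum : ∀ i, e * (d * (d + 1)) +
      2 * ∑ l, ∑ s ∈ range (k - 1), ((g i l).totalDegree - s) < 2 * n)
    (hfree : APFree k p n (⋃ i, {x | x ∈ zeros (S i) ∧ (fun l => eval x (g i l)) ∈ C i})) :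
    (⋃ i, {x | x ∈ zeros (S i) ∧ (fun l => eval x (g i l)) ∈ C i}).ncard * p ^ (2 * e) ≤
      T * ((p * d + p - d) ^ e * p ^ n) := by
  classical
  have key : ∀ i, {x | x ∈ zeros (S i) ∧ (fun l => eval x (g i l)) ∈ C i}.ncard * p ^ (2 * e) ≤
      (p * d + p - d) ^ e * p ^ n := by
    intro i
    obtain ⟨B, hB, hpat⟩ := patterns (m := n) (E := 1) hd (by rwa [ZMod.card]) (S i) (hS i) e
    rw [ZMod.card, ← pow_mul] at hB
    refine le_trans (Nat.mul_le_mul_right _ (Set.ncard_le_ncard ?_ (Set.toFinite _))) hB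
    rintro a ⟨haS, haC⟩
    by_contra haB
    choose E hE1 hE2 hE3 using fun l => ap_family hk hkp a (g i l) le_rfl
    obtain ⟨h, h0, h1, h2⟩ := hpat a haS haB Unit (Fin (r i) × Fin (k - 1)) (fun _ j => X j)
      (fun c => E c.1 c.2) (fun _ j => (totalDegree_X j).le) (fun _ j => by rw [eval_X]; rfl)
      (fun c => hE2 c.1 c.2)
      (by
        rw [Fintype.card_unit, mul_one, mul_one]
        refine lt_of_le_of_lt ?_ (hsum i)
        refine Nat.add_le_add_left (Nat.mul_le_mul_left _ ?_) _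
        rw [Fintype.sum_prod_type]
        refine Finset.sum_le_sum fun l _ => ?_
        rw [Finset.sum_range]
        exact Finset.sum_le_sum fun s _ => hE1 l s)
    refine h0 (hfree a h fun j hj => ?_)
    rw [Set.mem_iUnion]
    refine ⟨i, ?_, ?_⟩
    · intro f hf
      have h3 := h1 () (j : ZMod p) f hf
      simp only [eval_X] at h3
      have h4 : (a + j • h) = fun l => a l + (j : ZMod p) * h l := by
        funext l
        simp
      rw [h4]
      exact h3
    · have h3 : (fun l => eval (a + j • h) (g i l)) = fun l => eval a (g i l) := by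
        funext l
        rw [← hE3 l h (fun s => h2 (l, s)) j hj, Nat.cast_smul_eq_nsmul]
      rw [h3]
      exact haC
  calc (⋃ i, {x | x ∈ zeros (S i) ∧ (fun l => eval x (g i l)) ∈ C i}).ncard * p ^ (2 * e)
      ≤ (∑ i, {x | x ∈ zeros (S i) ∧ (fun l => eval x (g i l)) ∈ C i}.ncard) * p ^ (2 * e) := by
        refine Nat.mul_le_mul_right _ ?_
        have h1 : (⋃ i, {x | x ∈ zeros (S i) ∧ (fun l => eval x (g i l)) ∈ C i}) ⊆
            ⋃ i ∈ (Finset.univ : Finset (Fin T)),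
              {x | x ∈ zeros (S i) ∧ (fun l => eval x (g i l)) ∈ C i} := by
          intro x hx
          simpa using hx
        exact (Set.ncard_le_ncard h1 (Set.toFinite _)).trans (Finset.set_ncard_biUnion_le _ _)
    _ = ∑ i, {x | x ∈ zeros (S i) ∧ (fun l => eval x (g i l)) ∈ C i}.ncard * p ^ (2 * e) :=
        Finset.sum_mul _ _ _
    _ ≤ ∑ _i : Fin T, (p * d + p - d) ^ e * p ^ n := Finset.sum_le_sum fun i _ => key i
    _ = _ := by
        rw [Finset.sum_const, Finset.card_univ, Fintype.card_fin, smul_eq_mul]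

theorem bdd (k d : ℕ) : BddAbove {m | ∃ S : Set (MvPolynomial (Fin n) (ZMod p)),
    (∀ f ∈ S, f.totalDegree ≤ d) ∧ APFree k p n (zeros S) ∧ (zeros S).ncard = m} := by
  refine ⟨p ^ n, ?_⟩
  rintro m ⟨S, -, -, rfl⟩
  have h1 := Set.ncard_le_card (zeros S)
  rwa [Nat.card_eq_fintype_card, Fintype.card_fun, Fintype.card_fin, ZMod.card] at h1

theorem nonempty {k : ℕ} (hk : 2 ≤ k) (d : ℕ) : {m | ∃ S : Set (MvPolynomial (Fin n) (ZMod p)),
    (∀ f ∈ S, f.totalDegree ≤ d) ∧ APFree k p n (zeros S) ∧ (zeros S).ncard = m}.Nonempty := by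
  refine ⟨0, {1}, ?_, ?_, ?_⟩
  · intro f hf
    rw [Set.mem_singleton_iff] at hf
    rw [hf]
    simp
  · intro x y h
    have := h 0 (by omega) 1 rfl
    simp at this
  · have : zeros ({1} : Set (MvPolynomial (Fin n) (ZMod p))) = ∅ := by
      ext x
      simp [zeros]
    rw [this, Set.ncard_empty]

theorem exists_rAlg {k : ℕ} (hk : 2 ≤ k) (d : ℕ) : ∃ S : Set (MvPolynomial (Fin n) (ZMod p)),
    (∀ f ∈ S, f.totalDegree ≤ d) ∧ APFree k p n (zeros S) ∧
      (zeros S).ncard = rAlg k d p n := Nat.sSup_mem (nonempty hk d) (bdd k d)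

theorem le_rAlg {k d : ℕ} {S : Set (MvPolynomial (Fin n) (ZMod p))}
    (hS : ∀ f ∈ S, f.totalDegree ≤ d) (hf : APFree k p n (zeros S)) :
    (zeros S).ncard ≤ rAlg k d p n := le_csSup (bdd k d) ⟨S, hS, hf, rfl⟩

theorem rAlg_upper {k d e : ℕ} (hk : 2 ≤ k) (hkp : k ≤ p) (hd : 1 ≤ d) (hdp : d ≤ p)
    (he : e * (d * (d + 1)) < 2 * n) :
    rAlg k d p n * p ^ (2 * e) ≤ (p * d + p - d) ^ e * p ^ n := by
  obtain ⟨S, hS, hfree, hc⟩ := exists_rAlg (p := p) (n := n) hk d
  have h1 := unions (T := 1) hk hkp hd hdp (fun _ => 0) (fun _ => S) (fun _ l => l.elim0)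
    (fun _ => Set.univ) (fun _ => hS) (by simpa using he) (e := e) (n := n)
  have h2 : (⋃ i : Fin 1, {x | x ∈ zeros S ∧ (fun l : Fin 0 => eval x
      ((fun _ l => l.elim0 : ∀ i : Fin 1, Fin 0 → MvPolynomial (Fin n) (ZMod p)) i l)) ∈
      (Set.univ : Set (Fin 0 → ZMod p))}) = zeros S := by
    ext x
    simp
  rw [h2, hc, one_mul] at h1
  exact h1 hfree

theorem rAlg_mul {k d n₁ n₂ : ℕ} (hk : 2 ≤ k) :
    rAlg k d p n₁ * rAlg k d p n₂ ≤ rAlg k d p (n₁ + n₂) := by
  classical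
  obtain ⟨S₁, hS₁, hf₁, hc₁⟩ := exists_rAlg (p := p) (n := n₁) hk d
  obtain ⟨S₂, hS₂, hf₂, hc₂⟩ := exists_rAlg (p := p) (n := n₂) hk d
  set S : Set (MvPolynomial (Fin (n₁ + n₂)) (ZMod p)) :=
    (rename (Fin.castAdd n₂)) '' S₁ ∪ (rename (Fin.natAdd n₁)) '' S₂ with hS
  have hmem : ∀ x : Fin (n₁ + n₂) → ZMod p, x ∈ zeros S ↔
      (fun i => x (Fin.castAdd n₂ i)) ∈ zeros S₁ ∧ (fun i => x (Fin.natAdd n₁ i)) ∈ zeros S₂ := by
    intro x
    constructor
    · intro h
      refine ⟨fun f hf => ?_, fun f hf => ?_⟩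
      · have := h _ (Or.inl ⟨f, hf, rfl⟩)
        rw [eval_rename] at this
        exact this
      · have := h _ (Or.inr ⟨f, hf, rfl⟩)
        rw [eval_rename] at this
        exact this
    · rintro ⟨h1, h2⟩ f hf
      rcases hf with ⟨f, hf, rfl⟩ | ⟨f, hf, rfl⟩
      · rw [eval_rename]
        exact h1 f hf
      · rw [eval_rename]
        exact h2 f hf
  have hdeg : ∀ f ∈ S, f.totalDegree ≤ d := by
    rintro f (⟨f, hf, rfl⟩ | ⟨f, hf, rfl⟩)
    · exact (totalDegree_rename_le _ _).trans (hS₁ f hf)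
    · exact (totalDegree_rename_le _ _).trans (hS₂ f hf)
  have hfree : APFree k p (n₁ + n₂) (zeros S) := by
    intro x y h
    have h1 := hf₁ (fun i => x (Fin.castAdd n₂ i)) (fun i => y (Fin.castAdd n₂ i))
      fun i hi => ((hmem _).1 (h i hi)).1
    have h2 := hf₂ (fun i => x (Fin.natAdd n₁ i)) (fun i => y (Fin.natAdd n₁ i))
      fun i hi => ((hmem _).1 (h i hi)).2
    funext i
    refine Fin.addCases (fun i => ?_) (fun i => ?_) i
    · exact congrFun h1 i
    · exact congrFun h2 i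
  refine le_trans ?_ (le_rAlg hdeg hfree)
  rw [← hc₁, ← hc₂, ← Set.ncard_prod]
  refine Set.ncard_le_ncard_of_injOn
    (fun y : (Fin n₁ → ZMod p) × (Fin n₂ → ZMod p) =>
      (Fin.append y.1 y.2 : Fin (n₁ + n₂) → ZMod p)) ?_ ?_ (Set.toFinite _)
  · rintro ⟨y₁, y₂⟩ hy
    rw [hmem]
    refine ⟨?_, ?_⟩
    · have : (fun i => (Fin.append y₁ y₂ : Fin (n₁ + n₂) → ZMod p) (Fin.castAdd n₂ i)) = y₁ := by
        funext i
        rw [Fin.append_left]
      rw [this]
      exact hy.1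
    · have : (fun i => (Fin.append y₁ y₂ : Fin (n₁ + n₂) → ZMod p) (Fin.natAdd n₁ i)) = y₂ := by
        funext i
        rw [Fin.append_right]
      rw [this]
      exact hy.2
  · rintro ⟨y₁, y₂⟩ _ ⟨z₁, z₂⟩ _ h
    simp only at h
    have h1 : y₁ = z₁ := by
      funext i
      have := congrFun h (Fin.castAdd n₂ i)
      rwa [Fin.append_left, Fin.append_left] at this
    have h2 : y₂ = z₂ := by
      funext i
      have := congrFun h (Fin.natAdd n₁ i)
      rwa [Fin.append_right, Fin.append_right] at this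
    rw [h1, h2]

theorem rAlg_pow {k d : ℕ} (hk : 2 ≤ k) (m : ℕ) : rAlg k d p n ^ (m + 1) ≤
    rAlg k d p ((m + 1) * n) := by
  induction m with
  | zero => simp
  | succ m ih =>
    calc rAlg k d p n ^ (m + 1 + 1) = rAlg k d p n ^ (m + 1) * rAlg k d p n := pow_succ _ _
      _ ≤ rAlg k d p ((m + 1) * n) * rAlg k d p n := Nat.mul_le_mul_right _ ih
      _ ≤ rAlg k d p ((m + 1) * n + n) := rAlg_mul hk
      _ = _ := by
        congr 1
        ring

theorem le_one_of_pow_le {x C : ℝ} (h : ∀ m : ℕ, x ^ (m + 1) ≤ C) : x ≤ 1 := by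
  by_contra hcon
  push Not at hcon
  obtain ⟨m, hm⟩ := pow_unbounded_of_one_lt C hcon
  have h1 := h m
  have h2 : x ^ m ≤ x ^ (m + 1) := pow_le_pow_right₀ hcon.le (by omega)
  linarith

/-- the factor of the weights -/
noncomputable def rho (d p : ℕ) : ℝ := (d + 1 - d / p) / p

theorem rho_eq {d : ℕ} (hdp : d ≤ p) : ((p * d + p - d : ℕ) : ℝ) / (p : ℝ) ^ 2 = rho d p := by
  have hp : (p : ℝ) ≠ 0 := by
    have := (Fact.out : p.Prime).pos
    positivity
  have h1 : d ≤ p * d + p := by omega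
  unfold rho
  rw [Nat.cast_sub h1]
  push_cast
  field_simp

theorem rho_pos {d : ℕ} (hdp : d ≤ p) : 0 < rho d p := by
  have hp := (Fact.out : p.Prime).pos
  have h1 : (0 : ℝ) < p := by exact_mod_cast hp
  have h2 : (d : ℝ) / p ≤ 1 := by
    rw [div_le_one h1]
    exact_mod_cast hdp
  unfold rho
  have h3 : (0 : ℝ) ≤ d := Nat.cast_nonneg d
  rcases Nat.eq_zero_or_pos d with h | h
  · subst h
    simp
    exact hp
  · have h4 : (1 : ℝ) ≤ d := by exact_mod_cast h
    apply div_pos _ h1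
    linarith

theorem rho_le {d : ℕ} (hdp : d ≤ p) : rho d p ≤ 1 := by
  have hp := (Fact.out : p.Prime).two_le
  have h1 : (2 : ℝ) ≤ p := by exact_mod_cast hp
  have h2 : (d : ℝ) ≤ p := by exact_mod_cast hdp
  unfold rho
  rw [div_le_one (by linarith)]
  have h3 : (d : ℝ) / p = d * (1 / p) := by ring
  have h4 : (1 : ℝ) / p ≤ 1 / 2 := by
    apply one_div_le_one_div_of_le <;> linarith
  have h5 : (0 : ℝ) < 1 / p := by positivity
  have h6 : (p : ℝ) * (1 / p) = 1 := by field_simp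
  rw [h3]
  nlinarith

/-- the upper bound for the progression-free algebraic sets, for all `n` -/
theorem rAlg_le {k d : ℕ} (hk : 2 ≤ k) (hkp : k ≤ p) (hd : 1 ≤ d) (hdp : d ≤ p) (hn : 1 ≤ n) :
    (rAlg k d p n : ℝ) ≤ (p : ℝ) ^ n * rho d p ^ (2 * (n : ℝ) / (d * (d + 1))) := by
  have hp : (0 : ℝ) < p := by exact_mod_cast (Fact.out : p.Prime).pos
  have hρ := rho_pos (p := p) hdp
  have hρ1 := rho_le (p := p) hdp
  have hdd : (0 : ℝ) < (d : ℝ) * (d + 1) := by positivity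
  set x : ℝ := (rAlg k d p n : ℝ) / ((p : ℝ) ^ n * rho d p ^ (2 * (n : ℝ) / (d * (d + 1))))
    with hx
  have hden : 0 < (p : ℝ) ^ n * rho d p ^ (2 * (n : ℝ) / (d * (d + 1))) := by positivity
  have hx0 : 0 ≤ x := by positivity
  have key : ∀ m : ℕ, x ^ (m + 1) ≤ (rho d p)⁻¹ := by
    intro m
    obtain ⟨hc1, hc2⟩ := ce_spec hd ((m + 1) * n)
    set e := ce d ((m + 1) * n) - 1 with he
    have hmn : 0 < (m + 1) * n := by positivity
    have hce : 1 ≤ ce d ((m + 1) * n) := by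
      by_contra hlt
      have : ce d ((m + 1) * n) = 0 := by omega
      rw [this] at hc1
      omega
    have he1 : e * (d * (d + 1)) < 2 * ((m + 1) * n) := by
      by_contra hge
      push Not at hge
      have := hc2 e hge
      omega
    have h1 := rAlg_upper (p := p) (n := (m + 1) * n) hk hkp hd hdp he1
    have h2 := rAlg_pow (p := p) (n := n) (d := d) hk m
    have h3 : (rAlg k d p n : ℝ) ^ (m + 1) ≤ rho d p ^ e * ((p : ℝ) ^ n) ^ (m + 1) := by
      have h4 : (rAlg k d p n : ℝ) ^ (m + 1) * (p : ℝ) ^ (2 * e) ≤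
          ((p * d + p - d : ℕ) : ℝ) ^ e * (p : ℝ) ^ ((m + 1) * n) := by
        have h5 := (Nat.mul_le_mul_right (p ^ (2 * e)) h2).trans h1
        exact_mod_cast h5
      have h5 : ((p * d + p - d : ℕ) : ℝ) ^ e = rho d p ^ e * (p : ℝ) ^ (2 * e) := by
        rw [← rho_eq hdp, div_pow, ← pow_mul]
        field_simp
      rw [h5] at h4
      have h6 : (0 : ℝ) < (p : ℝ) ^ (2 * e) := by positivity
      have h7 : rho d p ^ e * (p : ℝ) ^ (2 * e) * (p : ℝ) ^ ((m + 1) * n) =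
          (rho d p ^ e * ((p : ℝ) ^ n) ^ (m + 1)) * (p : ℝ) ^ (2 * e) := by
        rw [← pow_mul, mul_comm n (m + 1)]
        ring
      rw [h7] at h4
      exact le_of_mul_le_mul_right h4 h6
    have h8 : rho d p ^ e ≤ (rho d p)⁻¹ * (rho d p ^ (2 * (n : ℝ) / (d * (d + 1)))) ^ (m + 1) := by
      rw [← Real.rpow_natCast (rho d p) e, ← Real.rpow_neg_one, ← Real.rpow_natCast (_ ^ _),
        ← Real.rpow_mul hρ.le, ← Real.rpow_add hρ]
      apply Real.rpow_le_rpow_of_exponent_ge hρ hρ1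
      have h9 : (2 * ((m + 1 : ℕ) * n : ℝ)) ≤ ((e : ℝ) + 1) * ((d : ℝ) * (d + 1)) := by
        have h10 : 2 * ((m + 1) * n) ≤ (e + 1) * (d * (d + 1)) := by
          have : e + 1 = ce d ((m + 1) * n) := by omega
          rw [this]
          exact hc1
        exact_mod_cast h10
      have h11 : 2 * (n : ℝ) / (d * (d + 1)) * ((m + 1 : ℕ) : ℝ) ≤ (e : ℝ) + 1 := by
        rw [div_mul_eq_mul_div, div_le_iff₀ hdd]
        linarith
      linarith
    rw [hx, div_pow, mul_pow]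
    rw [div_le_iff₀ (by positivity)]
    calc (rAlg k d p n : ℝ) ^ (m + 1) ≤ rho d p ^ e * ((p : ℝ) ^ n) ^ (m + 1) := h3
      _ ≤ ((rho d p)⁻¹ * (rho d p ^ (2 * (n : ℝ) / (d * (d + 1)))) ^ (m + 1)) *
          ((p : ℝ) ^ n) ^ (m + 1) := by gcongr
      _ = _ := by ring
  have h1 := le_one_of_pow_le key
  rw [hx, div_le_one hden] at h1
  exact h1

/-- `sup_{n ≥ 1} rAlg^{1/n}` -/
noncomputable def lamAlg (k d p : ℕ) : ℝ :=
  ⨆ n : ℕ, (rAlg k d p (n + 1) : ℝ) ^ (1 / ((n : ℝ) + 1))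

theorem root_le {k d : ℕ} (hk : 2 ≤ k) (hkp : k ≤ p) (hd : 1 ≤ d) (hdp : d ≤ p) (n : ℕ) :
    (rAlg k d p (n + 1) : ℝ) ^ (1 / ((n : ℝ) + 1)) ≤
      (p : ℝ) * rho d p ^ (2 / ((d : ℝ) * (d + 1))) := by
  have hp : (0 : ℝ) < p := by exact_mod_cast (Fact.out : p.Prime).pos
  have hρ := rho_pos (p := p) hdp
  have h1 := rAlg_le (p := p) (n := n + 1) hk hkp hd hdp (by omega)
  have hn : ((n : ℝ) + 1) ≠ 0 := by positivity
  have hdd : (d : ℝ) * (d + 1) ≠ 0 := by positivity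
  have h2 : (p : ℝ) ^ (n + 1) * rho d p ^ (2 * ((n + 1 : ℕ) : ℝ) / (d * (d + 1))) =
      ((p : ℝ) * rho d p ^ (2 / ((d : ℝ) * (d + 1)))) ^ ((n : ℝ) + 1) := by
    rw [Real.mul_rpow hp.le (by positivity), ← Real.rpow_mul hρ.le]
    have h3 : (p : ℝ) ^ (n + 1) = (p : ℝ) ^ ((n : ℝ) + 1) := by
      rw [← Real.rpow_natCast]
      push_cast
      rfl
    rw [h3]
    congr 2
    push_cast
    field_simp
  rw [h2] at h1
  calc (rAlg k d p (n + 1) : ℝ) ^ (1 / ((n : ℝ) + 1))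
      ≤ (((p : ℝ) * rho d p ^ (2 / ((d : ℝ) * (d + 1)))) ^ ((n : ℝ) + 1)) ^
        (1 / ((n : ℝ) + 1)) := Real.rpow_le_rpow (by positivity) h1 (by positivity)
    _ = _ := by
        rw [← Real.rpow_mul (by positivity), mul_one_div_cancel hn, Real.rpow_one]

theorem lamAlg_le {k d : ℕ} (hk : 2 ≤ k) (hkp : k ≤ p) (hd : 1 ≤ d) (hdp : d ≤ p) :
    lamAlg k d p ≤ (p : ℝ) * rho d p ^ (2 / ((d : ℝ) * (d + 1))) :=
  ciSup_le fun n => root_le hk hkp hd hdp n

/-- few points on lines: no progressions -/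
theorem apFree_of_blk {k d r : ℕ} (hdk : d < k) (hkp : k ≤ p)
    {Q : Fin r → MvPolynomial (Fin n) (ZMod p)}
    (hl : ∀ x u : Fin n → ZMod p, u ≠ 0 → ∀ T : Finset (ZMod p),
      (∀ s ∈ T, x + s • u ∈ zs Q) → T.card ≤ d) :
    APFree k p n (zeros (Set.range Q)) := by
  classical
  intro x y hxy
  by_contra hy
  have hinj : Set.InjOn (fun i : ℕ => (i : ZMod p)) (Finset.range k : Set ℕ) := by
    intro i hi j hj hij
    rw [Finset.coe_range, Set.mem_Iio] at hi hj
    have := (ZMod.natCast_eq_natCast_iff' i j p).mp hij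
    rwa [Nat.mod_eq_of_lt (by omega), Nat.mod_eq_of_lt (by omega)] at this
  have := hl x y hy ((Finset.range k).image (fun i : ℕ => (i : ZMod p))) (by
    intro s hs
    rw [Finset.mem_image] at hs
    obtain ⟨i, hi, rfl⟩ := hs
    rw [Finset.mem_range] at hi
    have h := hxy i hi
    rw [mem_zs]
    intro l
    have e : x + i • y = x + (i : ZMod p) • y := by
      rw [Nat.cast_smul_eq_nsmul]
    rw [← e]
    exact h _ ⟨l, rfl⟩)
  rw [Finset.card_image_of_injOn hinj, Finset.card_range] at this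
  omega

theorem zeros_range {r : ℕ} (Q : Fin r → MvPolynomial (Fin n) (ZMod p)) :
    zeros (Set.range Q) = (zs Q : Set (Fin n → ZMod p)) := by
  ext x
  rw [Finset.mem_coe, mem_zs]
  exact ⟨fun h i => h _ ⟨i, rfl⟩, fun h => by rintro f ⟨i, rfl⟩; exact h i⟩

theorem rAlg_lower {k d e : ℕ} (hd : 1 ≤ d) (hdk : d < k) (hkp : k ≤ p)
    (he : 2 * n ≤ e * (d * (d + 1))) : p ^ (n - e) ≤ rAlg k d p n := by
  classical
  obtain ⟨Q, hQd, hc, hl⟩ := blk (ZMod p) d hd n
  have h1 := le_rAlg (p := p) (k := k) (d := d) (S := Set.range Q)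
    (by rintro f ⟨i, rfl⟩; exact hQd i) (apFree_of_blk hdk hkp hl)
  rw [zeros_range, Set.ncard_coe_finset] at h1
  refine le_trans ?_ (hc.trans h1)
  rw [ZMod.card]
  refine Nat.pow_le_pow_right (Fact.out : p.Prime).pos ?_
  have := (ce_spec hd n).2 e he
  omega

theorem le_lamAlg {k d : ℕ} (hd : 1 ≤ d) (hdk : d < k) (hkp : k ≤ p) :
    (p : ℝ) ^ (1 - 2 / ((d : ℝ) * (d + 1))) ≤ lamAlg k d p := by
  have hp : (0 : ℝ) < p := by exact_mod_cast (Fact.out : p.Prime).pos
  obtain ⟨N, hN⟩ : ∃ N, d * (d + 1) = 2 * N := by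
    have := Nat.even_mul_succ_self d
    obtain ⟨N, hN⟩ := this
    exact ⟨N, by omega⟩
  have hN1 : 1 ≤ N := by
    have h1 : 1 * 2 ≤ d * (d + 1) := Nat.mul_le_mul hd (by omega)
    omega
  obtain ⟨m, rfl⟩ : ∃ m, N = m + 1 := ⟨N - 1, by omega⟩
  have h1 : p ^ m ≤ rAlg k d p (m + 1) := by
    have := rAlg_lower (p := p) (n := m + 1) (e := 1) hd hdk hkp (by omega)
    simpa using this
  have hbdd : BddAbove (Set.range fun n : ℕ => (rAlg k d p (n + 1) : ℝ) ^ (1 / ((n : ℝ) + 1))) := by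
    refine ⟨(p : ℝ) * rho d p ^ (2 / ((d : ℝ) * (d + 1))), ?_⟩
    rintro _ ⟨n, rfl⟩
    exact root_le (by omega) hkp hd (by omega) n
  refine le_trans ?_ (le_ciSup hbdd m)
  have h2 : ((m : ℝ) + 1) ≠ 0 := by positivity
  have h3 : (d : ℝ) * (d + 1) = 2 * ((m : ℝ) + 1) := by exact_mod_cast hN
  have h4 : 1 - 2 / ((d : ℝ) * (d + 1)) = (m : ℝ) * (1 / ((m : ℝ) + 1)) := by
    rw [h3]
    field_simp
    ring
  rw [h4, Real.rpow_mul hp.le, Real.rpow_natCast]
  apply Real.rpow_le_rpow (by positivity) _ (by positivity)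
  exact_mod_cast h1

/-- a few polynomials: lines through all points -/
theorem few {d r : ℕ} (Q : Fin r → MvPolynomial (Fin n) (ZMod p)) (hQ : ∀ i, (Q i).totalDegree ≤ d)
    (hr : r * (d * (d + 1)) < 2 * n) {a : Fin n → ZMod p} (ha : ∀ i, eval a (Q i) = 0) :
    ∃ h : Fin n → ZMod p, h ≠ 0 ∧ ∀ (t : ZMod p) (i : Fin r), eval (a + t • h) (Q i) = 0 := by
  classical
  obtain ⟨h, h0, hz⟩ := cw (fun x : Fin r × Fin (d * 1) =>
      homogeneousComponent ((x.2 : ℕ) + 1) (sub a X (Q x.1))) (by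
    rintro ⟨i, j⟩
    have h1 := homogeneousComponent_isHomogeneous ((j : ℕ) + 1) (sub a X (Q i))
    have h2 : eval (0 : Fin n → ZMod p) (homogeneousComponent ((j : ℕ) + 1) (sub a X (Q i))) =
        constantCoeff (homogeneousComponent ((j : ℕ) + 1) (sub a X (Q i))) := by
      rw [← MvPolynomial.eval_zero]
    rw [h2, MvPolynomial.constantCoeff_eq]
    exact h1.coeff_eq_zero (by simp)) (by
    have h1 : ∑ x : Fin r × Fin (d * 1),
        (homogeneousComponent ((x.2 : ℕ) + 1) (sub a X (Q x.1))).totalDegree ≤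
        ∑ x : Fin r × Fin (d * 1), ((x.2 : ℕ) + 1) :=
      Finset.sum_le_sum fun x _ =>
        (homogeneousComponent_isHomogeneous ((x.2 : ℕ) + 1) _).totalDegree_le
    have h2 : 2 * ∑ x : Fin r × Fin (d * 1), ((x.2 : ℕ) + 1) = r * (d * (d + 1)) := by
      rw [Fintype.sum_prod_type]
      simp only [Finset.sum_const, Finset.card_univ, Fintype.card_fin, smul_eq_mul]
      have := sum_fin_succ (d * 1)
      calc _ = r * (2 * ∑ i : Fin (d * 1), ((i : ℕ) + 1)) := by ring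
        _ = _ := by rw [this]; ring
    omega)
  refine ⟨h, h0, fun t i => ?_⟩
  have h1 := cur_zero (D := d) (E := 1) (L := X) (h := h) (hQ i)
    (fun j => (totalDegree_X (R := ZMod p) j).le) (fun j => by rw [eval_X]; rfl) (ha i)
    (fun j => hz (i, j))
  have h2 := pe t (cur a X h) (Q i)
  rw [h1, Polynomial.eval_zero] at h2
  rw [h2]
  congr 2
  funext j
  rw [eval_cur, eval_X]
  rfl

theorem equations {k d r : ℕ} (hd : 1 ≤ d) (hdk : d < k) (hkp : k ≤ p) :
    (∃ Q : Fin r → MvPolynomial (Fin n) (ZMod p), (∀ i, (Q i).totalDegree ≤ d) ∧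
      (zeros (Set.range Q)).Nonempty ∧ APFree k p n (zeros (Set.range Q))) ↔
    2 * n ≤ r * (d * (d + 1)) := by
  classical
  constructor
  · rintro ⟨Q, hQ, ⟨a, ha⟩, hfree⟩
    by_contra hcon
    push Not at hcon
    obtain ⟨h, h0, h1⟩ := few Q hQ hcon (a := a) (fun i => ha _ ⟨i, rfl⟩)
    refine h0 (hfree a h fun j _ => ?_)
    rintro f ⟨i, rfl⟩
    have := h1 (j : ZMod p) i
    rwa [Nat.cast_smul_eq_nsmul] at this
  · intro hr
    have hce := (ce_spec hd n).2 r hr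
    obtain ⟨Q, hQd, hc, hl⟩ := blk (ZMod p) d hd n
    have hz : zeros (Set.range (fun i : Fin r => if h : (i : ℕ) < ce d n then Q ⟨i, h⟩ else 0)) =
        zeros (Set.range Q) := by
      ext x
      constructor
      · rintro h f ⟨i, rfl⟩
        have := h _ ⟨⟨i, by omega⟩, rfl⟩
        simpa using this
      · rintro h f ⟨i, rfl⟩
        simp only
        split_ifs with h1
        · exact h _ ⟨_, rfl⟩
        · exact map_zero _
    refine ⟨fun i => if h : (i : ℕ) < ce d n then Q ⟨i, h⟩ else 0, ?_, ?_, ?_⟩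
    · intro i
      simp only
      split_ifs with h1
      · exact hQd _
      · simp
    · rw [hz, zeros_range]
      have h1 : 0 < (zs Q).card := lt_of_lt_of_le (by
        rw [ZMod.card]
        exact pow_pos (Fact.out : p.Prime).pos _) hc
      rw [Finset.coe_nonempty]
      exact Finset.card_pos.1 h1
    · rw [hz]
      exact apFree_of_blk hdk hkp hl

end Pool.Agent.U425.VL
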