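import Pool.Agent.U425.VL.AP

/-!
# Graphs whose neighbourhoods are algebraic sets of bounded degree
-/

set_option autoImplicit false

open MvPolynomial

namespace Pool.Agent.U425.VL

section

variable {F : Type} [Field F] [Fintype F] {N m : ℕ}

/-- a vector of `F ^ m` extended by zeros -/
def zext {F : Type} [Zero F] {m : ℕ} (N : ℕ) (h : Fin m → F) : Fin N → F :=
  fun j => if hj : (j : ℕ) < m then h ⟨j, hj⟩ else 0

omit [Fintype F] in
theorem zext_ne_zero (hm : m ≤ N) {h : Fin m → F} (h0 : h ≠ 0) : zext N h ≠ 0 := by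
  intro hz
  apply h0
  funext i
  have := congrFun hz ⟨i, lt_of_lt_of_le i.2 hm⟩
  simpa [zext] using this

/-- **Lines in algebraic sets.** -/
theorem lines {D : ℕ} (hD : 1 ≤ D) (hDq : D ≤ Fintype.card F)
    (S : Set (MvPolynomial (Fin N) F)) (hS : ∀ f ∈ S, f.totalDegree ≤ D) (e : ℕ)
    (he : e * (D * (D + 1)) < 2 * m) :
    ∃ B : Set (Fin N → F), B.ncard * (Fintype.card F ^ 2) ^ e ≤
        (Fintype.card F * D + Fintype.card F - D) ^ e * Fintype.card F ^ N ∧
      ∀ a, (∀ f ∈ S, eval a f = 0) → a ∉ B →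
        ∃ h : Fin m → F, h ≠ 0 ∧ ∀ t : F, ∀ g ∈ S, eval (a + t • zext N h) g = 0 := by
  obtain ⟨B, hB, hp⟩ := patterns (m := m) (E := 1) hD hDq S hS e
  refine ⟨B, hB, fun a ha hab => ?_⟩
  obtain ⟨h, h0, h1, -⟩ := hp a ha hab Unit Empty
    (fun _ j => if hj : (j : ℕ) < m then X ⟨j, hj⟩ else 0) (fun c => c.elim)
    (fun _ j => by
      by_cases hj : (j : ℕ) < m
      · simp [hj]
      · simp [hj])
    (fun _ j => by
      by_cases hj : (j : ℕ) < m
      · simp [hj]
      · simp [hj])
    (fun c => c.elim) (by simpa using he)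
  refine ⟨h, h0, fun t g hg => ?_⟩
  have h2 := h1 () t g hg
  rw [← h2]
  congr 2
  funext j
  by_cases hj : (j : ℕ) < m
  · simp [zext, hj]
  · simp [zext, hj]

/-- **Incidences.** Sets which are unions of `R` algebraic sets of degree at most `D`, no `s` of them with
a common line. -/
theorem incidence {ι : Type} [Fintype ι] {D R s : ℕ} (hD : 1 ≤ D) (hDq : D ≤ Fintype.card F)
    (hm : m ≤ N) (e : ℕ) (he : e * (D * (D + 1)) < 2 * m)
    (S : ι → Fin R → Set (MvPolynomial (Fin N) F)) (hS : ∀ x i, ∀ f ∈ S x i, f.totalDegree ≤ D)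
    (hs : ∀ T : Finset ι, T.card = s → ∀ a b : Fin N → F, b ≠ 0 →
      ∃ x ∈ T, ∃ t : F, ¬ ∃ i, ∀ f ∈ S x i, eval (a + t • b) f = 0) :
    (∑ x, {y : Fin N → F | ∃ i, ∀ f ∈ S x i, eval y f = 0}.ncard) * (Fintype.card F ^ 2) ^ e ≤
      R * Fintype.card ι * ((Fintype.card F * D + Fintype.card F - D) ^ e * Fintype.card F ^ N) +
      (s - 1) * Fintype.card F ^ (N + m) * (Fintype.card F ^ 2) ^ e := by
  classical
  set q := Fintype.card F with hq
  choose B hB hBa using fun x i => lines (m := m) hD hDq (S x i) (hS x i) e he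
  set Z : ι → Set (Fin N → F) := fun x => {y | ∃ i, ∀ f ∈ S x i, eval y f = 0} with hZ
  set P : ι → Finset ((Fin N → F) × (Fin m → F)) := fun x =>
    Finset.univ.filter (fun p => p.2 ≠ 0 ∧ ∀ t : F, p.1 + t • zext N p.2 ∈ Z x) with hP
  have h1 : ∀ x, (Z x).ncard ≤ ∑ i, (B x i).ncard + (P x).card := by
    intro x
    have hsub : Z x ⊆ (⋃ i, B x i) ∪ (((P x).image Prod.fst : Finset (Fin N → F)) : Set _) := by
      rintro a ⟨i, hi⟩
      by_cases hb : a ∈ ⋃ i, B x i
      · exact Or.inl hb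
      · right
        obtain ⟨h, h0, hh⟩ := hBa x i a hi (fun hab => hb (Set.mem_iUnion.2 ⟨i, hab⟩))
        rw [Finset.mem_coe, Finset.mem_image]
        exact ⟨(a, h), Finset.mem_filter.2 ⟨Finset.mem_univ _, h0, fun t => ⟨i, hh t⟩⟩, rfl⟩
    calc (Z x).ncard ≤ ((⋃ i, B x i) ∪ (((P x).image Prod.fst : Finset (Fin N → F)) :
            Set (Fin N → F))).ncard := Set.ncard_le_ncard hsub (Set.toFinite _)
      _ ≤ (⋃ i, B x i).ncard + (((P x).image Prod.fst : Finset (Fin N → F)) :
            Set (Fin N → F)).ncard := Set.ncard_union_le _ _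
      _ ≤ ∑ i, (B x i).ncard + (P x).card := by
        refine add_le_add ?_ ?_
        · refine (Set.ncard_iUnion_le_of_fintype _).trans le_rfl
        · rw [Set.ncard_coe_finset]
          exact Finset.card_image_le
  have h2 : ∑ x, (P x).card ≤ (s - 1) * q ^ (N + m) := by
    have h3 := Finset.sum_card_bipartiteAbove_eq_sum_card_bipartiteBelow
      (s := (Finset.univ : Finset ι)) (t := (Finset.univ : Finset ((Fin N → F) × (Fin m → F))))
      (fun x p => p ∈ P x)
    have h4 : ∀ x, (Finset.bipartiteAbove (fun x p => p ∈ P x)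
        (Finset.univ : Finset ((Fin N → F) × (Fin m → F))) x) = P x := by
      intro x
      ext p
      simp [Finset.mem_bipartiteAbove]
    rw [Finset.sum_congr rfl fun x _ => congrArg Finset.card (h4 x)] at h3
    rw [h3]
    have h5 : ∀ p : (Fin N → F) × (Fin m → F),
        (Finset.bipartiteBelow (fun x p => p ∈ P x) (Finset.univ : Finset ι) p).card ≤ s - 1 := by
      intro p
      by_contra hcon
      rw [not_le] at hcon
      have hne : (Finset.bipartiteBelow (fun x p => p ∈ P x) (Finset.univ : Finset ι) p).Nonempty := by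
        rw [← Finset.card_pos]
        omega
      obtain ⟨x0, hx0⟩ := hne
      have hx1 : p ∈ P x0 := (Finset.mem_bipartiteBelow _).1 hx0 |>.2
      have hp0 : p.2 ≠ 0 := (Finset.mem_filter.1 hx1).2.1
      obtain ⟨T, hT, hTc⟩ := Finset.exists_subset_card_eq
        (show s ≤ (Finset.bipartiteBelow (fun x p => p ∈ P x) (Finset.univ : Finset ι) p).card by
          omega)
      obtain ⟨x, hx, t, ht⟩ := hs T hTc p.1 (zext N p.2) (zext_ne_zero hm hp0)
      have hx2 : p ∈ P x := (Finset.mem_bipartiteBelow _).1 (hT hx) |>.2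
      exact ht ((Finset.mem_filter.1 hx2).2.2 t)
    calc ∑ p : (Fin N → F) × (Fin m → F),
          (Finset.bipartiteBelow (fun x p => p ∈ P x) (Finset.univ : Finset ι) p).card
        ≤ ∑ _p : (Fin N → F) × (Fin m → F), (s - 1) := Finset.sum_le_sum fun p _ => h5 p
      _ = (s - 1) * q ^ (N + m) := by
        rw [Finset.sum_const, Finset.card_univ, Fintype.card_prod, Fintype.card_fun,
          Fintype.card_fun, Fintype.card_fin, Fintype.card_fin, smul_eq_mul, pow_add, mul_comm]
  calc (∑ x, (Z x).ncard) * (q ^ 2) ^ e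
      ≤ (∑ x, (∑ i, (B x i).ncard + (P x).card)) * (q ^ 2) ^ e :=
        Nat.mul_le_mul_right _ (Finset.sum_le_sum fun x _ => h1 x)
    _ = ∑ x, ∑ i, (B x i).ncard * (q ^ 2) ^ e + (∑ x, (P x).card) * (q ^ 2) ^ e := by
        rw [Finset.sum_add_distrib, add_mul, Finset.sum_mul]
        congr 1
        exact Finset.sum_congr rfl fun x _ => Finset.sum_mul _ _ _
    _ ≤ ∑ _x : ι, ∑ _i : Fin R, ((q * D + q - D) ^ e * q ^ N) +
          (s - 1) * q ^ (N + m) * (q ^ 2) ^ e :=
        add_le_add (Finset.sum_le_sum fun x _ => Finset.sum_le_sum fun i _ => hB x i)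
          (Nat.mul_le_mul_right _ h2)
    _ = _ := by
        rw [Finset.sum_const, Finset.sum_const, Finset.card_univ, Finset.card_univ,
          Fintype.card_fin, smul_eq_mul, smul_eq_mul]
        ring

end

end Pool.Agent.U425.VL
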