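import Pool.Agent.U425.VL.Gr

/-!
# Graphs with algebraic neighbourhoods and no `K_{s,t}`
-/

set_option autoImplicit false

open MvPolynomial SimpleGraph

namespace Pool.Agent.U425.VL

section

variable {F : Type} [Field F] [Fintype F] {N : ℕ}

omit [Field F] in
/-- the number of edges is at most half the sum of the sizes of the sets containing the
neighbourhoods -/
theorem two_edges_le (G : SimpleGraph (Fin N → F)) (Z : (Fin N → F) → Set (Fin N → F))
    (hZ : ∀ x y, G.Adj x y → y ∈ Z x) : 2 * G.edgeSet.ncard ≤ ∑ x, (Z x).ncard := by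
  classical
  have h1 : G.edgeSet.ncard = G.edgeFinset.card := by
    rw [← SimpleGraph.coe_edgeFinset, Set.ncard_coe_finset]
  rw [h1, ← SimpleGraph.sum_degrees_eq_twice_card_edges]
  refine Finset.sum_le_sum fun x _ => ?_
  rw [← SimpleGraph.card_neighborFinset_eq_degree, ← Set.ncard_coe_finset]
  refine Set.ncard_le_ncard ?_ (Set.toFinite _)
  intro y hy
  rw [SimpleGraph.coe_neighborFinset, SimpleGraph.mem_neighborSet] at hy
  exact hZ x y hy

/-- no `s` of the neighbourhoods of a `K_{s,t}`-free graph contain a common line -/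
theorem no_line {R s t : ℕ} (hst : s + t ≤ Fintype.card F) (G : SimpleGraph (Fin N → F))
    (S : (Fin N → F) → Fin R → Set (MvPolynomial (Fin N) F))
    (hG : ∀ x y, y ≠ x → (G.Adj x y ↔ ∃ i, ∀ f ∈ S x i, eval y f = 0))
    (hfree : (completeBipartiteGraph (Fin s) (Fin t)).Free G) :
    ∀ T : Finset (Fin N → F), T.card = s → ∀ a b : Fin N → F, b ≠ 0 →
      ∃ x ∈ T, ∃ t : F, ¬ ∃ i, ∀ f ∈ S x i, eval (a + t • b) f = 0 := by
  classical
  intro T hT a b hb
  by_contra hcon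
  push Not at hcon
  apply hfree
  have hinj : Function.Injective (fun c : F => a + c • b) := by
    intro c d hcd
    have h1 : c • b = d • b := add_left_cancel hcd
    have h2 : (c - d) • b = 0 := by rw [sub_smul, h1, sub_self]
    rcases smul_eq_zero.1 h2 with h3 | h3
    · exact sub_eq_zero.1 h3
    · exact absurd h3 hb
  set L : Finset (Fin N → F) := Finset.univ.image (fun c : F => a + c • b) with hL
  have hLc : L.card = Fintype.card F := by
    rw [hL, Finset.card_image_of_injective _ hinj, Finset.card_univ]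
  have h3 : t ≤ (L \ T).card := by
    have := Finset.le_card_sdiff T L
    omega
  obtain ⟨Y, hY, hYc⟩ := Finset.exists_subset_card_eq h3
  rw [completeBipartiteGraph_isContained_iff]
  refine ⟨T, Y, by rw [hT, Fintype.card_fin], by rw [hYc, Fintype.card_fin], ?_⟩
  intro x hx y hy
  have hyL := Finset.mem_sdiff.1 (hY hy)
  obtain ⟨c, -, hc⟩ := Finset.mem_image.1 hyL.1
  have hyx : y ≠ x := by
    rintro rfl
    exact hyL.2 hx
  obtain ⟨i, hi⟩ := hcon x hx c
  exact (hG x y hyx).2 ⟨i, by rw [← hc]; exact hi⟩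

/-- **Finite bound.** -/
theorem graph_bound {m D R s t : ℕ} (hD : 1 ≤ D) (hDq : D ≤ Fintype.card F)
    (hst : s + t ≤ Fintype.card F) (hm : m ≤ N) (e : ℕ) (he : e * (D * (D + 1)) < 2 * m)
    (G : SimpleGraph (Fin N → F)) (S : (Fin N → F) → Fin R → Set (MvPolynomial (Fin N) F))
    (hS : ∀ x i, ∀ f ∈ S x i, f.totalDegree ≤ D)
    (hG : ∀ x y, y ≠ x → (G.Adj x y ↔ ∃ i, ∀ f ∈ S x i, eval y f = 0))
    (hfree : (completeBipartiteGraph (Fin s) (Fin t)).Free G) :
    2 * G.edgeSet.ncard * (Fintype.card F ^ 2) ^ e ≤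
      R * Fintype.card F ^ N *
        ((Fintype.card F * D + Fintype.card F - D) ^ e * Fintype.card F ^ N) +
      (s - 1) * Fintype.card F ^ (N + m) * (Fintype.card F ^ 2) ^ e := by
  have h1 := incidence hD hDq hm e he S hS (no_line hst G S hG hfree)
  have h2 : Fintype.card (Fin N → F) = Fintype.card F ^ N := by
    rw [Fintype.card_fun, Fintype.card_fin]
  rw [h2] at h1
  refine le_trans (Nat.mul_le_mul_right _ (two_edges_le G
    (fun x => {y : Fin N → F | ∃ i, ∀ f ∈ S x i, eval y f = 0}) ?_)) h1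
  intro x y hxy
  exact (hG x y hxy.ne').1 hxy

end

/-- the saving `δ(q, D) = 2 - log_q (q D + q - D)` -/
noncomputable def sav (q D : ℕ) : ℝ := 2 - Real.logb q (q * D + q - D)

/-- the exponent `γ(q, D) = 2 δ / (2 δ + D (D + 1))` -/
noncomputable def gam (q D : ℕ) : ℝ := 2 * sav q D / (2 * sav q D + D * (D + 1))

theorem sav_pos {q D : ℕ} (hD : 1 ≤ D) (hDq : D < q) : 0 < sav q D := by
  have hq : (1 : ℝ) < q := by
    have : 1 < q := by omega
    exact_mod_cast this
  have hD' : (1 : ℝ) ≤ D := by exact_mod_cast hD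
  have hDq' : (D : ℝ) < q := by exact_mod_cast hDq
  have h1 : (0 : ℝ) < q * D + q - D := by nlinarith
  have h2 : (q * D + q - D : ℝ) < (q : ℝ) ^ 2 := by nlinarith
  have h3 : Real.logb q (q * D + q - D) < 2 := by
    rw [Real.logb_lt_iff_lt_rpow hq h1]
    exact_mod_cast h2
  rw [sav]
  linarith

theorem sav_le_one {q D : ℕ} (hD : 1 ≤ D) (hDq : D < q) : sav q D ≤ 1 := by
  have hq : (1 : ℝ) < q := by
    have : 1 < q := by omega
    exact_mod_cast this
  have hD' : (1 : ℝ) ≤ D := by exact_mod_cast hD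
  have hDq' : (D : ℝ) < q := by exact_mod_cast hDq
  have h1 : (0 : ℝ) < q * D + q - D := by nlinarith
  have h3 : 1 ≤ Real.logb q (q * D + q - D) := by
    rw [Real.le_logb_iff_rpow_le hq h1, Real.rpow_one]
    nlinarith
  rw [sav]
  linarith

theorem rpow_sav {q D : ℕ} (hD : 1 ≤ D) (hDq : D < q) :
    ((q * D + q - D : ℕ) : ℝ) = (q : ℝ) ^ (2 - sav q D) := by
  have hq : (1 : ℝ) < q := by
    have : 1 < q := by omega
    exact_mod_cast this
  have hD' : (1 : ℝ) ≤ D := by exact_mod_cast hD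
  have hDq' : (D : ℝ) < q := by exact_mod_cast hDq
  have h1 : (0 : ℝ) < q * D + q - D := by nlinarith
  have h2 : 2 - sav q D = Real.logb q (q * D + q - D) := by
    rw [sav]
    ring
  rw [h2, Real.rpow_logb (by linarith) (by linarith) h1, Nat.cast_sub (by nlinarith)]
  push_cast
  ring

theorem gam_pos {q D : ℕ} (hD : 1 ≤ D) (hDq : D < q) : 0 < gam q D := by
  have h1 := sav_pos hD hDq
  rw [gam]
  positivity

theorem gam_lt_one {q D : ℕ} (hD : 1 ≤ D) (hDq : D < q) : gam q D < 1 := by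
  have h1 := sav_pos hD hDq
  have hD' : (1 : ℝ) ≤ D := by exact_mod_cast hD
  rw [gam, div_lt_one (by positivity)]
  nlinarith

/-- the choice of `e` and `m` -/
theorem real_bound {q N D R s A : ℕ} (hD : 1 ≤ D) (hDq : D < q)
    (h0 : A ≤ R * q ^ N * q ^ N)
    (h : ∀ m e : ℕ, m ≤ N → e * (D * (D + 1)) < 2 * m → A * (q ^ 2) ^ e ≤
      R * q ^ N * ((q * D + q - D) ^ e * q ^ N) + (s - 1) * q ^ (N + m) * (q ^ 2) ^ e) :
    (A : ℝ) ≤ (R + s) * (q : ℝ) ^ (gam q D + sav q D) * ((q : ℝ) ^ N) ^ (2 - gam q D) := by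
  have hq : (1 : ℝ) < q := by
    have : 1 < q := by omega
    exact_mod_cast this
  have hq0 : (0 : ℝ) < q := by linarith
  have hD' : (1 : ℝ) ≤ D := by exact_mod_cast hD
  have hδ := sav_pos hD hDq
  have hγ := gam_pos hD hDq
  set δ := sav q D with hδd
  set γ := gam q D with hγd
  rcases Nat.eq_zero_or_pos N with hN | hN
  · subst hN
    have h1 : (A : ℝ) ≤ R := by
      have : A ≤ R := by simpa using h0
      exact_mod_cast this
    have h2 : (1 : ℝ) ≤ (q : ℝ) ^ (γ + δ) := Real.one_le_rpow hq.le (by linarith)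
    rw [pow_zero, Real.one_rpow, mul_one]
    have h3 : (0 : ℝ) ≤ s := Nat.cast_nonneg _
    have h4 : (0 : ℝ) ≤ R := Nat.cast_nonneg _
    nlinarith
  · obtain ⟨K, hK⟩ : ∃ K, D * (D + 1) = 2 * K := by
      obtain ⟨k, hk⟩ := Nat.even_mul_succ_self D
      exact ⟨k, by omega⟩
    have hK' : (D : ℝ) * (D + 1) = 2 * K := by exact_mod_cast hK
    have hKpos : (0 : ℝ) < K := by nlinarith
    have hγK : γ = δ / (δ + K) := by
      rw [hγd, gam, ← hδd, hK']
      field_simp
    have hγ' : γ * (δ + K) = δ := by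
      rw [hγK]
      field_simp
    set e : ℕ := ⌊((N : ℝ) - 1) / (δ + K)⌋₊ with he
    have hN1 : (0 : ℝ) ≤ (N : ℝ) - 1 := by
      have : (1 : ℝ) ≤ N := by exact_mod_cast hN
      linarith
    have he1 : (e : ℝ) * (δ + K) ≤ (N : ℝ) - 1 := by
      have := Nat.floor_le (show 0 ≤ ((N : ℝ) - 1) / (δ + K) by positivity)
      rw [← he] at this
      rwa [le_div_iff₀ (by positivity)] at this
    have he2 : ((N : ℝ) - 1) < ((e : ℝ) + 1) * (δ + K) := by
      have := Nat.lt_floor_add_one (((N : ℝ) - 1) / (δ + K))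
      rw [← he] at this
      rwa [div_lt_iff₀ (by positivity)] at this
    have hm : e * K + 1 ≤ N := by
      have h1 : (e : ℝ) * K ≤ N - 1 := by nlinarith [mul_nonneg (Nat.cast_nonneg (α := ℝ) e) hδ.le]
      have h2 : ((e * K + 1 : ℕ) : ℝ) ≤ N := by
        push_cast
        linarith
      exact_mod_cast h2
    have h1 := h (e * K + 1) e hm (by rw [hK]; linarith)
    have h2 : (A : ℝ) * ((q : ℝ) ^ 2) ^ e ≤
        R * (q : ℝ) ^ N * (((q : ℝ) ^ (2 - δ)) ^ e * (q : ℝ) ^ N) +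
          s * (q : ℝ) ^ (N + (e * K + 1)) * ((q : ℝ) ^ 2) ^ e := by
      have h3 : (A : ℝ) * ((q : ℝ) ^ 2) ^ e ≤
          R * (q : ℝ) ^ N * (((q * D + q - D : ℕ) : ℝ) ^ e * (q : ℝ) ^ N) +
            ((s - 1 : ℕ) : ℝ) * (q : ℝ) ^ (N + (e * K + 1)) * ((q : ℝ) ^ 2) ^ e := by
        exact_mod_cast h1
      rw [rpow_sav hD hDq, ← hδd] at h3
      refine h3.trans ?_
      have h4 : ((s - 1 : ℕ) : ℝ) ≤ s := by exact_mod_cast Nat.sub_le s 1
      gcongr
    -- exponents
    have hexp1 : ((q : ℝ) ^ (2 - δ)) ^ e = ((q : ℝ) ^ 2) ^ e * (q : ℝ) ^ (-(δ * e)) := by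
      rw [← Real.rpow_natCast ((q : ℝ) ^ (2 - δ)) e, ← Real.rpow_mul hq0.le, ← pow_mul,
        ← Real.rpow_natCast (q : ℝ) (2 * e), ← Real.rpow_add hq0]
      congr 1
      push_cast
      ring
    have hpos : (0 : ℝ) < ((q : ℝ) ^ 2) ^ e := by positivity
    have h5 : (A : ℝ) ≤ R * (q : ℝ) ^ N * ((q : ℝ) ^ (-(δ * e)) * (q : ℝ) ^ N) +
          s * (q : ℝ) ^ (N + (e * K + 1)) := by
      rw [hexp1] at h2
      have h6 : (A : ℝ) * ((q : ℝ) ^ 2) ^ e ≤ (R * (q : ℝ) ^ N * ((q : ℝ) ^ (-(δ * e)) *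
          (q : ℝ) ^ N) + s * (q : ℝ) ^ (N + (e * K + 1))) * ((q : ℝ) ^ 2) ^ e := by
        refine h2.trans (le_of_eq ?_)
        ring
      exact le_of_mul_le_mul_right h6 hpos
    have h7 : R * (q : ℝ) ^ N * ((q : ℝ) ^ (-(δ * e)) * (q : ℝ) ^ N) ≤
        R * ((q : ℝ) ^ (γ + δ) * ((q : ℝ) ^ N) ^ (2 - γ)) := by
      rw [mul_assoc]
      refine mul_le_mul_of_nonneg_left ?_ (Nat.cast_nonneg _)
      rw [← Real.rpow_natCast (q : ℝ) N, ← Real.rpow_add hq0, ← Real.rpow_add hq0,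
        ← Real.rpow_mul hq0.le, ← Real.rpow_add hq0]
      refine Real.rpow_le_rpow_of_exponent_le hq.le ?_
      nlinarith [mul_pos hγ hδ]
    have h8 : (s : ℝ) * (q : ℝ) ^ (N + (e * K + 1)) ≤
        s * ((q : ℝ) ^ (γ + δ) * ((q : ℝ) ^ N) ^ (2 - γ)) := by
      refine mul_le_mul_of_nonneg_left ?_ (Nat.cast_nonneg _)
      rw [← Real.rpow_natCast (q : ℝ) N, ← Real.rpow_natCast (q : ℝ) (N + (e * K + 1)),
        ← Real.rpow_mul hq0.le, ← Real.rpow_add hq0]
      refine Real.rpow_le_rpow_of_exponent_le hq.le ?_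
      push_cast
      -- eK ≤ (N-1)(1-γ)
      have h9 : (e : ℝ) * K ≤ ((N : ℝ) - 1) * (1 - γ) := by
        have h10 : 1 - γ = K / (δ + K) := by
          rw [hγK]
          field_simp
          ring
        have h11 : (e : ℝ) ≤ ((N : ℝ) - 1) / (δ + K) := by
          rw [le_div_iff₀ (by positivity)]
          exact he1
        rw [h10]
        calc (e : ℝ) * K ≤ ((N : ℝ) - 1) / (δ + K) * K := by gcongr
          _ = _ := by ring
      nlinarith
    calc (A : ℝ) ≤ _ := h5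
      _ ≤ R * ((q : ℝ) ^ (γ + δ) * ((q : ℝ) ^ N) ^ (2 - γ)) +
          s * ((q : ℝ) ^ (γ + δ) * ((q : ℝ) ^ N) ^ (2 - γ)) := add_le_add h7 h8
      _ = _ := by ring

end Pool.Agent.U425.VL
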