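import Pool.Agent.U425.VL.Gr2

/-!
# The bound for all large fields and dimensions
-/

set_option autoImplicit false

open MvPolynomial SimpleGraph Filter Topology

namespace Pool.Agent.U425.VL

theorem sav_tendsto (D : ℕ) (hD : 1 ≤ D) : Tendsto (fun q : ℕ => sav q D) atTop (𝓝 1) := by
  have hD' : (1 : ℝ) ≤ D := by exact_mod_cast hD
  have h1 : Tendsto (fun q : ℕ => 1 - Real.log (D + 1) / Real.log q) atTop (𝓝 1) := by
    have h2 : Tendsto (fun q : ℕ => Real.log (q : ℝ)) atTop atTop :=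
      Real.tendsto_log_atTop.comp tendsto_natCast_atTop_atTop
    have h3 := (tendsto_const_nhds (x := Real.log ((D : ℝ) + 1))).div_atTop h2
    have h4 := (tendsto_const_nhds (x := (1 : ℝ))).sub h3
    simpa using h4
  refine tendsto_of_tendsto_of_tendsto_of_le_of_le' h1 tendsto_const_nhds ?_ ?_
  · filter_upwards [eventually_gt_atTop D] with q hq
    have hq1 : (1 : ℝ) < q := by
      have : 1 < q := by omega
      exact_mod_cast this
    have hDq' : (D : ℝ) < q := by exact_mod_cast hq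
    have hlog : 0 < Real.log q := Real.log_pos hq1
    have h5 : Real.log (q * D + q - D) ≤ Real.log (D + 1) + Real.log q := by
      rw [← Real.log_mul (by positivity) (by positivity)]
      exact Real.log_le_log (by nlinarith) (by nlinarith)
    rw [sav, Real.logb]
    have h6 : Real.log (q * D + q - D) / Real.log q ≤ Real.log (D + 1) / Real.log q + 1 := by
      rw [div_add_one hlog.ne']
      exact div_le_div_of_nonneg_right h5 hlog.le
    linarith
  · filter_upwards [eventually_gt_atTop D] with q hq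
    exact sav_le_one hD hq

theorem gam_tendsto (D : ℕ) (hD : 1 ≤ D) :
    Tendsto (fun q : ℕ => gam q D) atTop (𝓝 (2 / (2 + D * (D + 1)))) := by
  have h1 := sav_tendsto D hD
  have h2 : Tendsto (fun q : ℕ => 2 * sav q D) atTop (𝓝 (2 * 1)) := h1.const_mul 2
  have h3 : Tendsto (fun q : ℕ => 2 * sav q D + D * (D + 1)) atTop (𝓝 (2 * 1 + D * (D + 1))) :=
    h2.add tendsto_const_nhds
  have h4 := h2.div h3 (by positivity)
  rw [mul_one] at h4
  exact h4

theorem uniform {D : ℕ} (R s : ℕ) (hD : 1 ≤ D) {θ : ℝ} (hθ : θ < 2 / (2 + D * (D + 1))) :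
    ∃ q₀ N₀ : ℕ, D < q₀ ∧ ∀ q, q₀ ≤ q → ∀ N, N₀ ≤ N →
      ((R : ℝ) + s) * (q : ℝ) ^ (gam q D + sav q D) * ((q : ℝ) ^ N) ^ (2 - gam q D) ≤
        ((q : ℝ) ^ N) ^ (2 - θ) := by
  have hev := (gam_tendsto D hD).eventually (lt_mem_nhds
    (show (θ + 2 / (2 + D * (D + 1))) / 2 < 2 / (2 + D * (D + 1)) by linarith))
  obtain ⟨q₁, hq₁⟩ := eventually_atTop.1 hev
  set η : ℝ := (2 / (2 + D * (D + 1)) - θ) / 2 with hη
  have hη0 : 0 < η := by
    rw [hη]
    linarith
  refine ⟨max q₁ (D + 1), ⌈(R + s + 2 : ℝ) / η⌉₊, by omega, ?_⟩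
  intro q hq N hN
  have hDq : D < q := by omega
  have hq1 : (1 : ℝ) < q := by
    have : 1 < q := by omega
    exact_mod_cast this
  have hq2 : (2 : ℝ) ≤ q := by
    have : 2 ≤ q := by omega
    exact_mod_cast this
  have hq0 : (0 : ℝ) < q := by linarith
  have hγ : θ + η < gam q D := by
    have := hq₁ q (by omega)
    rw [hη]
    linarith
  have hN' : (R + s + 2 : ℝ) ≤ N * η := by
    have h1 : (R + s + 2 : ℝ) / η ≤ N :=
      (Nat.le_ceil _).trans (by exact_mod_cast hN)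
    rwa [div_le_iff₀ hη0] at h1
  have hRs : ((R : ℝ) + s) ≤ (q : ℝ) ^ ((R : ℝ) + s) := by
    have h1 : (R + s : ℕ) ≤ 2 ^ (R + s) := Nat.lt_two_pow_self.le
    have h2 : ((R + s : ℕ) : ℝ) ≤ (2 : ℝ) ^ (R + s) := by exact_mod_cast h1
    have h3 : (2 : ℝ) ^ (R + s) ≤ (q : ℝ) ^ (R + s) := pow_le_pow_left₀ (by norm_num) hq2 _
    have h4 : (q : ℝ) ^ ((R : ℝ) + s) = (q : ℝ) ^ (R + s) := by
      rw [← Real.rpow_natCast]
      push_cast
      rfl
    rw [h4]
    push_cast at h2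
    linarith
  have hgs : gam q D + sav q D ≤ 2 := by
    have h1 := gam_lt_one hD hDq
    have h2 := sav_le_one hD hDq
    linarith
  have h5 : (q : ℝ) ^ (gam q D + sav q D) ≤ (q : ℝ) ^ (2 : ℝ) :=
    Real.rpow_le_rpow_of_exponent_le hq1.le hgs
  have hRs0 : (0 : ℝ) ≤ (R : ℝ) + s := by positivity
  calc ((R : ℝ) + s) * (q : ℝ) ^ (gam q D + sav q D) * ((q : ℝ) ^ N) ^ (2 - gam q D)
      ≤ (q : ℝ) ^ ((R : ℝ) + s) * (q : ℝ) ^ (2 : ℝ) * ((q : ℝ) ^ N) ^ (2 - gam q D) := by
        gcongr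
    _ = (q : ℝ) ^ ((R + s + 2 : ℝ) + N * (2 - gam q D)) := by
        rw [← Real.rpow_natCast (q : ℝ) N, ← Real.rpow_mul hq0.le, ← Real.rpow_add hq0,
          ← Real.rpow_add hq0]
    _ ≤ (q : ℝ) ^ ((N : ℝ) * (2 - θ)) := by
        refine Real.rpow_le_rpow_of_exponent_le hq1.le ?_
        have h6 : (N : ℝ) * (θ + η) ≤ N * gam q D :=
          mul_le_mul_of_nonneg_left hγ.le (Nat.cast_nonneg _)
        nlinarith
    _ = ((q : ℝ) ^ N) ^ (2 - θ) := by
        rw [← Real.rpow_natCast (q : ℝ) N, ← Real.rpow_mul hq0.le]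

section

variable {F : Type} [Field F] [Fintype F] {N : ℕ}

/-- **Power bound.** -/
theorem graph_power {D R s t : ℕ} (hD : 1 ≤ D) (hDq : D < Fintype.card F)
    (hst : s + t ≤ Fintype.card F)
    (G : SimpleGraph (Fin N → F)) (S : (Fin N → F) → Fin R → Set (MvPolynomial (Fin N) F))
    (hS : ∀ x i, ∀ f ∈ S x i, f.totalDegree ≤ D)
    (hG : ∀ x y, y ≠ x → (G.Adj x y ↔ ∃ i, ∀ f ∈ S x i, eval y f = 0))
    (hfree : (completeBipartiteGraph (Fin s) (Fin t)).Free G) :
    2 * (G.edgeSet.ncard : ℝ) ≤ (R + s) * (Fintype.card F : ℝ) ^ (gam (Fintype.card F) D +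
      sav (Fintype.card F) D) * ((Fintype.card F : ℝ) ^ N) ^ (2 - gam (Fintype.card F) D) := by
  have h0 : 2 * G.edgeSet.ncard ≤ R * Fintype.card F ^ N * Fintype.card F ^ N := by
    rcases Nat.eq_zero_or_pos R with hR | hR
    · subst hR
      refine (two_edges_le G (fun _ => ∅) ?_).trans ?_
      · intro x y hxy
        obtain ⟨i, -⟩ := (hG x y hxy.ne').1 hxy
        exact i.elim0
      · simp
    · refine (two_edges_le G (fun _ => Set.univ) (fun _ _ _ => Set.mem_univ _)).trans ?_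
      rw [Finset.sum_const, Set.ncard_univ, Nat.card_eq_fintype_card, Finset.card_univ,
        smul_eq_mul, Fintype.card_fun, Fintype.card_fin]
      nlinarith [Nat.mul_le_mul_right (Fintype.card F ^ N * Fintype.card F ^ N) hR]
  have h := real_bound (q := Fintype.card F) (N := N) (D := D) (R := R) (s := s)
    (A := 2 * G.edgeSet.ncard) hD hDq h0
    (fun m e hm he => graph_bound hD hDq.le hst hm e he G S hS hG hfree)
  push_cast at h
  exact h

end

end Pool.Agent.U425.VL
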