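import Pool.Agent.U425.VL.Gr3

/-!
# The order of magnitude is not reached
-/

set_option autoImplicit false

open Filter Topology

namespace Pool.Agent.U425.VL

/-- If `c n ^ (2 - α) ≤ C n ^ (2 - γ)` for `n = q ^ N` with arbitrarily large `N`, then `γ ≤ α`. -/
theorem exponent_le {q : ℕ} (hq : 1 < q) {c C α γ : ℝ} (hc : 0 < c)
    (h : ∀ N₀ : ℕ, ∃ N, N₀ ≤ N ∧
      c * ((q : ℝ) ^ N) ^ (2 - α) ≤ C * ((q : ℝ) ^ N) ^ (2 - γ)) : γ ≤ α := by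
  by_contra hcon
  rw [not_le] at hcon
  have hq1 : (1 : ℝ) < q := by exact_mod_cast hq
  have hq0 : (0 : ℝ) < q := by linarith
  have h1 : Tendsto (fun N : ℕ => ((q : ℝ) ^ (γ - α)) ^ N) atTop atTop :=
    tendsto_pow_atTop_atTop_of_one_lt (Real.one_lt_rpow hq1 (by linarith))
  obtain ⟨N₀, hN₀⟩ := eventually_atTop.1 (h1.eventually (eventually_gt_atTop (C / c)))
  obtain ⟨N, hN, hle⟩ := h N₀
  have h2 := hN₀ N hN
  rw [div_lt_iff₀ hc] at h2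
  have hn0 : (0 : ℝ) < (q : ℝ) ^ N := by positivity
  have h3 : ((q : ℝ) ^ N) ^ (2 - α) = ((q : ℝ) ^ (γ - α)) ^ N * ((q : ℝ) ^ N) ^ (2 - γ) := by
    rw [← Real.rpow_natCast (q : ℝ) N, ← Real.rpow_natCast ((q : ℝ) ^ (γ - α)) N,
      ← Real.rpow_mul hq0.le, ← Real.rpow_mul hq0.le, ← Real.rpow_mul hq0.le,
      ← Real.rpow_add hq0]
    congr 1
    ring
  rw [h3] at hle
  have h4 : (0 : ℝ) < ((q : ℝ) ^ N) ^ (2 - γ) := by positivity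
  have h5 : (c * ((q : ℝ) ^ (γ - α)) ^ N) * ((q : ℝ) ^ N) ^ (2 - γ) ≤
      C * ((q : ℝ) ^ N) ^ (2 - γ) := by
    calc _ = c * (((q : ℝ) ^ (γ - α)) ^ N * ((q : ℝ) ^ N) ^ (2 - γ)) := by ring
      _ ≤ _ := hle
  have h6 := le_of_mul_le_mul_right h5 h4
  nlinarith

/-- `γ ≤ 1 / r` means `2 δ (r - 1) ≤ D (D + 1)` -/
theorem gam_le_iff {q D r : ℕ} (hD : 1 ≤ D) (hDq : D < q) (hr : 1 ≤ r) (h : gam q D ≤ 1 / r) :
    2 * sav q D * (r - 1) ≤ D * (D + 1) := by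
  have hδ := sav_pos hD hDq
  have hD' : (1 : ℝ) ≤ D := by exact_mod_cast hD
  have hr' : (1 : ℝ) ≤ r := by exact_mod_cast hr
  rw [gam, div_le_div_iff₀ (by positivity) (by positivity)] at h
  nlinarith

end Pool.Agent.U425.VL
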