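import Pool.Agent.U425.VL.Fp

/-!
# All progression-free sets are algebraic sets of some degree
-/

set_option autoImplicit false

open MvPolynomial Finset

namespace Pool.Agent.U425.VL

/-- `r_k(F_p^n)`: the largest size of a subset of `F_p^n` without nontrivial `k`-term
progressions. -/
noncomputable def r (k p n : ℕ) : ℕ :=
  sSup {m | ∃ A : Set (Fin n → ZMod p), APFree k p n A ∧ A.ncard = m}

/-- `λ_{k,p} = sup_{n ≥ 1} r_k(F_p^n)^{1/n}`. -/
noncomputable def lam (k p : ℕ) : ℝ :=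
  ⨆ n : ℕ, (r k p (n + 1) : ℝ) ^ (1 / ((n : ℝ) + 1))

variable {p : ℕ} [Fact p.Prime] {n : ℕ}

theorem bdd' (k : ℕ) : BddAbove {m | ∃ A : Set (Fin n → ZMod p), APFree k p n A ∧
    A.ncard = m} := by
  refine ⟨p ^ n, ?_⟩
  rintro m ⟨S, -, rfl⟩
  have h1 := Set.ncard_le_card S
  rwa [Nat.card_eq_fintype_card, Fintype.card_fun, Fintype.card_fin, ZMod.card] at h1

theorem r_le (k : ℕ) : r k p n ≤ p ^ n := by
  unfold r
  refine csSup_le' ?_
  rintro m ⟨S, -, rfl⟩
  have h1 := Set.ncard_le_card S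
  rwa [Nat.card_eq_fintype_card, Fintype.card_fun, Fintype.card_fin, ZMod.card] at h1

theorem rAlg_le_r (k d : ℕ) : rAlg k d p n ≤ r k p n := by
  unfold rAlg
  refine csSup_le' ?_
  rintro m ⟨S, -, hS, rfl⟩
  exact le_csSup (bdd' k) ⟨_, hS, rfl⟩

/-- the indicator function of a point as a polynomial -/
noncomputable def del (b : Fin n → ZMod p) : MvPolynomial (Fin n) (ZMod p) :=
  ∏ j, (1 - (X j - C (b j)) ^ (p - 1))

theorem del_deg (b : Fin n → ZMod p) : (del b).totalDegree ≤ n * (p - 1) := by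
  refine (totalDegree_finsetProd _ _).trans ?_
  refine (Finset.sum_le_sum fun j _ => ?_ : _ ≤ ∑ _j : Fin n, (p - 1)).trans (by simp)
  refine (totalDegree_sub _ _).trans ?_
  rw [totalDegree_one]
  refine max_le (Nat.zero_le _) ((totalDegree_pow _ _).trans ?_)
  have h1 : (X j - C (b j) : MvPolynomial (Fin n) (ZMod p)).totalDegree ≤ 1 := by
    refine (totalDegree_sub _ _).trans ?_
    rw [totalDegree_X, totalDegree_C]
    exact max_le le_rfl (Nat.zero_le _)
  calc (p - 1) * (X j - C (b j) : MvPolynomial (Fin n) (ZMod p)).totalDegree ≤ (p - 1) * 1 :=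
        Nat.mul_le_mul_left _ h1
    _ = p - 1 := mul_one _

theorem del_eval (b x : Fin n → ZMod p) : eval x (del b) = 0 ↔ x ≠ b := by
  have hp1 : p - 1 ≠ 0 := by
    have := (Fact.out : p.Prime).two_le
    omega
  unfold del
  rw [map_prod, Finset.prod_eq_zero_iff]
  constructor
  · rintro ⟨j, -, hj⟩ rfl
    rw [map_sub, map_one, map_pow, map_sub, eval_X, eval_C, sub_self, zero_pow hp1, sub_zero] at hj
    exact one_ne_zero hj
  · intro h
    obtain ⟨j, hj⟩ := Function.ne_iff.1 h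
    refine ⟨j, Finset.mem_univ _, ?_⟩
    rw [map_sub, map_one, map_pow, map_sub, eval_X, eval_C,
      ZMod.pow_card_sub_one_eq_one (sub_ne_zero.2 hj), sub_self]

theorem zeros_del (A : Set (Fin n → ZMod p)) : zeros (del '' Aᶜ) = A := by
  ext x
  constructor
  · intro h
    by_contra hx
    have := h _ ⟨x, hx, rfl⟩
    exact (del_eval x x).1 this rfl
  · rintro hx f ⟨b, hb, rfl⟩
    rw [del_eval]
    rintro rfl
    exact hb hx

theorem r_eq (k : ℕ) : rAlg k (n * (p - 1)) p n = r k p n := by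
  refine le_antisymm (rAlg_le_r k _) ?_
  unfold r
  refine csSup_le' ?_
  rintro m ⟨A, hA, rfl⟩
  have h1 := le_rAlg (p := p) (n := n) (k := k) (d := n * (p - 1)) (S := del '' Aᶜ)
    (by rintro f ⟨b, -, rfl⟩; exact del_deg b) (by rwa [zeros_del])
  rwa [zeros_del] at h1

theorem pow_root_le {a : ℕ} {m : ℕ} (h : a ≤ p ^ (m + 1)) :
    (a : ℝ) ^ (1 / ((m : ℝ) + 1)) ≤ p := by
  have h1 : (a : ℝ) ≤ (p : ℝ) ^ (m + 1) := by exact_mod_cast h
  calc (a : ℝ) ^ (1 / ((m : ℝ) + 1))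
      ≤ ((p : ℝ) ^ (m + 1)) ^ (1 / ((m : ℝ) + 1)) :=
        Real.rpow_le_rpow (by positivity) h1 (by positivity)
    _ = (p : ℝ) := by
        have : ((m : ℝ) + 1) = ((m + 1 : ℕ) : ℝ) := by push_cast; ring
        rw [this, one_div, Real.pow_rpow_inv_natCast (by positivity) (by omega)]

theorem lam_bdd (k : ℕ) :
    BddAbove (Set.range fun n : ℕ => (r k p (n + 1) : ℝ) ^ (1 / ((n : ℝ) + 1))) := by
  refine ⟨p, ?_⟩
  rintro _ ⟨m, rfl⟩
  exact pow_root_le (r_le k)

theorem lamAlg_bdd (k d : ℕ) :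
    BddAbove (Set.range fun n : ℕ => (rAlg k d p (n + 1) : ℝ) ^ (1 / ((n : ℝ) + 1))) := by
  refine ⟨p, ?_⟩
  rintro _ ⟨m, rfl⟩
  exact pow_root_le ((rAlg_le_r k d).trans (r_le k))

theorem lamAlg_le_lam (k d : ℕ) : lamAlg k d p ≤ lam k p := by
  refine ciSup_le fun m => ?_
  refine le_trans ?_ (le_ciSup (lam_bdd k) m)
  refine Real.rpow_le_rpow (by positivity) ?_ (by positivity)
  exact_mod_cast rAlg_le_r k d

/-- the growth rate is the supremum of the growth rates of the algebraic sets of degree `d` -/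
theorem lam_eq (k : ℕ) : lam k p = ⨆ d, lamAlg k d p := by
  have hb : BddAbove (Set.range fun d => lamAlg k d p) :=
    ⟨lam k p, by rintro _ ⟨d, rfl⟩; exact lamAlg_le_lam k d⟩
  refine le_antisymm ?_ (ciSup_le fun d => lamAlg_le_lam k d)
  refine ciSup_le fun m => ?_
  refine le_trans ?_ (le_ciSup hb ((m + 1) * (p - 1)))
  refine le_trans (le_of_eq ?_) (le_ciSup (lamAlg_bdd k ((m + 1) * (p - 1))) m)
  rw [r_eq]

theorem rho_lt {d : ℕ} (hd : 1 ≤ d) (hdp : d < p) : rho d p < 1 := by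
  have hp := (Fact.out : p.Prime).two_le
  have h1 : (2 : ℝ) ≤ p := by exact_mod_cast hp
  have h2 : (d : ℝ) + 1 ≤ p := by exact_mod_cast hdp
  have h3 : (1 : ℝ) ≤ d := by exact_mod_cast hd
  have h4 : (0 : ℝ) < (d : ℝ) / p := by positivity
  unfold rho
  rw [div_lt_one (by linarith)]
  linarith

end Pool.Agent.U425.VL
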