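import Pool.Agent.U425.VL.Wt

/-!
# Selection of equations

From an arbitrary space `I` of polynomials of degree at most `D` one can select `e` elements such that
through all points of `F ^ N` outside a set of size `ρ ^ e q ^ N`, `ρ < 1`, all components of the zero
set of the `e` selected polynomials are contained in the zero set of `I`.
-/

set_option autoImplicit false

open MvPolynomial Filter
open scoped ENNReal

namespace Pool.Agent.U425.VL

open Pool.Agent.N684.BK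

theorem sum_biUnion_le' {α β : Type*} [DecidableEq β] (s : Finset α) (g : α → Finset β)
    (w : β → ℝ≥0∞) : ∑ x ∈ s.biUnion g, w x ≤ ∑ a ∈ s, ∑ x ∈ g a, w x := by
  classical
  induction s using Finset.induction_on with
  | empty => simp
  | insert a s ha ih =>
    rw [Finset.biUnion_insert, Finset.sum_insert ha]
    calc ∑ x ∈ g a ∪ s.biUnion g, w x ≤ ∑ x ∈ g a ∪ s.biUnion g, w x +
          ∑ x ∈ g a ∩ s.biUnion g, w x := le_self_add
      _ = ∑ x ∈ g a, w x + ∑ x ∈ s.biUnion g, w x := Finset.sum_union_inter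
      _ ≤ _ := by gcongr

theorem arith {q D x J : ℕ} (hDq : D ≤ q) (hx : q * x ≤ J) (hxJ : x ≤ J) (hq : 1 ≤ q) :
    q * (x * q + (J - x) * D) ≤ J * (q * D + q - D) := by
  obtain ⟨y, rfl⟩ := Nat.exists_eq_add_of_le hxJ
  obtain ⟨z, rfl⟩ := Nat.exists_eq_add_of_le hDq
  have h1 : x + y - x = y := by omega
  have h2 : (D + z) * D + (D + z) - D = (D + z) * D + z := by omega
  rw [h1, h2]
  obtain ⟨c, hc⟩ : ∃ c, (D + z) = c + 1 := ⟨D + z - 1, by omega⟩
  have h3 : c * x ≤ y := by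
    rw [hc] at hx
    nlinarith
  have h4 : z * (c * x) ≤ z * y := Nat.mul_le_mul_left _ h3
  have h5 : (D + z) * (x * (D + z)) = (D + z) * D * x + (D + z) * z * x := by ring
  have h6 : (D + z) * z * x = z * (c * x) + z * x := by
    rw [hc]
    ring
  nlinarith

variable {F : Type} [Field F] [Fintype F] {N : ℕ}

theorem card_in (I : Submodule F (MvPolynomial (Fin N) F)) [Module.Finite F I]
    (P : Ideal (MvPolynomial (Fin N) F)) (h : ¬ (I : Set (MvPolynomial (Fin N) F)) ⊆ P) :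
    Fintype.card F * Nat.card {u : I // (u : MvPolynomial (Fin N) F) ∈ P} ≤ Nat.card I := by
  have h1 : Cd I P 1 := by
    unfold Cd
    have h2 : I ⊓ P.restrictScalars F < I := by
      refine lt_of_le_of_ne inf_le_left ?_
      intro heq
      apply h
      intro f hf
      rw [← heq] at hf
      exact hf.2
    have := Submodule.finrank_lt_finrank_of_lt h2
    omega
  have := Pool.Agent.N136.BK.RCI.card_mem_le I P 1 h1
  simpa using this

theorem step {D : ℕ} (hD : 1 ≤ D) (hDq : D ≤ Fintype.card F)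
    (I : Submodule F (MvPolynomial (Fin N) F)) [Module.Finite F I]
    (hI : ∀ f ∈ I, f.totalDegree ≤ D) (T : Finset (Ideal (MvPolynomial (Fin N) F)))
    (hT : ∀ P ∈ T, P.IsPrime ∧ ¬ (I : Set (MvPolynomial (Fin N) F)) ⊆ P) :
    ∃ f ∈ I, ∃ T' : Finset (Ideal (MvPolynomial (Fin N) F)),
      (∀ P ∈ T', P.IsPrime ∧ ¬ (I : Set (MvPolynomial (Fin N) F)) ⊆ P) ∧
      (Fintype.card F : ℝ≥0∞) ^ 2 * ∑ P ∈ T', wgt P ≤
        ((Fintype.card F * D + Fintype.card F - D : ℕ) : ℝ≥0∞) * ∑ P ∈ T, wgt P ∧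
      ∀ Q : Ideal (MvPolynomial (Fin N) F), Q.IsPrime →
        ¬ (I : Set (MvPolynomial (Fin N) F)) ⊆ Q → f ∈ Q → (∃ P ∈ T, P ≤ Q) →
        ∃ P ∈ T', P ≤ Q := by
  classical
  set q := Fintype.card F with hq
  have hq1 : 1 ≤ q := Fintype.card_pos
  have hfin : ∀ (f : MvPolynomial (Fin N) F) (P : Ideal (MvPolynomial (Fin N) F)),
      (P ⊔ Ideal.span {f}).minimalPrimes.Finite :=
    fun f P => Ideal.finite_minimalPrimes_of_isNoetherianRing _ _
  set g : MvPolynomial (Fin N) F → Ideal (MvPolynomial (Fin N) F) →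
      Finset (Ideal (MvPolynomial (Fin N) F)) := fun f P => if f ∈ P then {P} else
        (hfin f P).toFinset.filter (fun Q => ¬ (I : Set (MvPolynomial (Fin N) F)) ⊆ Q) with hg
  have hprime : ∀ f, ∀ P ∈ T.biUnion (g f), P.IsPrime ∧
      ¬ (I : Set (MvPolynomial (Fin N) F)) ⊆ P := by
    intro f Q hQ
    rw [Finset.mem_biUnion] at hQ
    obtain ⟨P, hP, hQP⟩ := hQ
    by_cases hf : f ∈ P
    · simp only [hg, hf, if_true, Finset.mem_singleton] at hQP
      rw [hQP]
      exact hT P hP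
    · simp only [hg, hf, if_false, Finset.mem_filter, Set.Finite.mem_toFinset] at hQP
      exact ⟨hQP.1.1.1, hQP.2⟩
  have hcov : ∀ f, ∀ Q : Ideal (MvPolynomial (Fin N) F), Q.IsPrime →
        ¬ (I : Set (MvPolynomial (Fin N) F)) ⊆ Q → f ∈ Q → (∃ P ∈ T, P ≤ Q) →
        ∃ P ∈ T.biUnion (g f), P ≤ Q := by
    rintro f Q hQ hIQ hfQ ⟨P, hP, hPQ⟩
    by_cases hf : f ∈ P
    · refine ⟨P, ?_, hPQ⟩
      rw [Finset.mem_biUnion]
      refine ⟨P, hP, ?_⟩
      simp only [hg, hf, if_true, Finset.mem_singleton]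
    · have h4 : P ⊔ Ideal.span {f} ≤ Q := by
        apply sup_le hPQ
        rwa [Ideal.span_singleton_le_iff_mem]
      obtain ⟨Q', hQ', hQQ'⟩ := Ideal.exists_minimalPrimes_le h4
      refine ⟨Q', ?_, hQQ'⟩
      rw [Finset.mem_biUnion]
      refine ⟨P, hP, ?_⟩
      simp only [hg, hf, if_false, Finset.mem_filter, Set.Finite.mem_toFinset]
      exact ⟨hQ', fun h => hIQ (h.trans hQQ')⟩
  have hw : ∀ f ∈ I, (q : ℝ≥0∞) * ∑ P ∈ T.biUnion (g f), wgt P ≤
      ∑ P ∈ T, if f ∈ P then (q : ℝ≥0∞) * wgt P else (D : ℝ≥0∞) * wgt P := by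
    intro f hf
    calc (q : ℝ≥0∞) * ∑ P ∈ T.biUnion (g f), wgt P
        ≤ (q : ℝ≥0∞) * ∑ P ∈ T, ∑ Q ∈ g f P, wgt Q := by
          gcongr
          exact sum_biUnion_le' _ _ _
      _ = ∑ P ∈ T, (q : ℝ≥0∞) * ∑ Q ∈ g f P, wgt Q := Finset.mul_sum _ _ _
      _ ≤ _ := by
          refine Finset.sum_le_sum fun P hP => ?_
          by_cases hfP : f ∈ P
          · simp only [hg, hfP, if_true, Finset.sum_singleton]
            exact le_rfl
          · simp only [hg, hfP, if_false]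
            exact wgt_cut hD (hT P hP).1 hfP (hI f hf) _ (fun Q hQ => by
              rw [Finset.mem_filter, Set.Finite.mem_toFinset] at hQ
              exact hQ.1)
  have : Finite I := Module.finite_of_finite F
  have := Fintype.ofFinite I
  by_contra hcon
  push Not at hcon
  have hlt : ∀ f : I, ((q * D + q - D : ℕ) : ℝ≥0∞) * ∑ P ∈ T, wgt P <
      (q : ℝ≥0∞) ^ 2 * ∑ P ∈ T.biUnion (g (f : MvPolynomial (Fin N) F)), wgt P := by
    intro f
    by_contra hle
    rw [not_lt] at hle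
    obtain ⟨Q, h1, h2, h3, h4, h5⟩ := hcon f f.2 _ (hprime f) hle
    obtain ⟨P, hP, hPQ⟩ := hcov f Q h1 h2 h3 h4
    exact h5 P hP hPQ
  have h1 := ENNReal.sum_lt_sum_of_nonempty (s := (Finset.univ : Finset I))
    Finset.univ_nonempty (fun f _ => hlt f)
  refine absurd h1 (not_lt.2 ?_)
  rw [Finset.sum_const, Finset.card_univ, nsmul_eq_mul]
  calc ∑ f : I, (q : ℝ≥0∞) ^ 2 * ∑ P ∈ T.biUnion (g (f : MvPolynomial (Fin N) F)), wgt P
      ≤ ∑ f : I, (q : ℝ≥0∞) * ∑ P ∈ T, (if (f : MvPolynomial (Fin N) F) ∈ P then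
          (q : ℝ≥0∞) * wgt P else (D : ℝ≥0∞) * wgt P) := by
        refine Finset.sum_le_sum fun f _ => ?_
        rw [pow_two, mul_assoc]
        gcongr
        exact hw f f.2
    _ = ∑ P ∈ T, (q : ℝ≥0∞) * ∑ f : I, (if (f : MvPolynomial (Fin N) F) ∈ P then
          (q : ℝ≥0∞) * wgt P else (D : ℝ≥0∞) * wgt P) := by
        rw [← Finset.mul_sum, Finset.sum_comm, Finset.mul_sum]
    _ ≤ ∑ P ∈ T, ((Fintype.card I : ℕ) : ℝ≥0∞) * (((q * D + q - D : ℕ) : ℝ≥0∞) * wgt P) := by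
        refine Finset.sum_le_sum fun P hP => ?_
        have h2 := card_in I P (hT P hP).2
        rw [Nat.card_eq_fintype_card, Nat.card_eq_fintype_card, Fintype.card_subtype] at h2
        set x := (Finset.univ.filter (fun u : I => (u : MvPolynomial (Fin N) F) ∈ P)).card with hx
        have hxJ : x ≤ Fintype.card I := Finset.card_le_univ _
        have h3 : ∑ f : I, (if (f : MvPolynomial (Fin N) F) ∈ P then
          (q : ℝ≥0∞) * wgt P else (D : ℝ≥0∞) * wgt P) =
            ((x * q + (Fintype.card I - x) * D : ℕ) : ℝ≥0∞) * wgt P := by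
          rw [Finset.sum_ite, Finset.sum_const, Finset.sum_const, ← hx]
          have h4 : (Finset.univ.filter (fun u : I => ¬ (u : MvPolynomial (Fin N) F) ∈ P)).card =
              Fintype.card I - x := by
            have h5 := Finset.card_filter_add_card_filter_not (s := (Finset.univ : Finset I))
              (fun u : I => (u : MvPolynomial (Fin N) F) ∈ P)
            rw [Finset.card_univ] at h5
            omega
          rw [h4, nsmul_eq_mul, nsmul_eq_mul]
          push_cast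
          ring
        rw [h3, ← mul_assoc, ← mul_assoc]
        have h6 := arith hDq h2 hxJ hq1
        exact mul_le_mul' (by exact_mod_cast h6) le_rfl
    _ = _ := by
        rw [← Finset.mul_sum, ← Finset.mul_sum]

theorem select' {D : ℕ} (hD : 1 ≤ D) (hDq : D ≤ Fintype.card F)
    (I : Submodule F (MvPolynomial (Fin N) F)) [Module.Finite F I]
    (hI : ∀ f ∈ I, f.totalDegree ≤ D) (e : ℕ) :
    ∃ f : Fin e → MvPolynomial (Fin N) F, (∀ i, f i ∈ I) ∧
    ∃ T : Finset (Ideal (MvPolynomial (Fin N) F)),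
      (∀ P ∈ T, P.IsPrime ∧ ¬ (I : Set (MvPolynomial (Fin N) F)) ⊆ P) ∧
      ((Fintype.card F : ℝ≥0∞) ^ 2) ^ e * ∑ P ∈ T, wgt P ≤
        ((Fintype.card F * D + Fintype.card F - D : ℕ) : ℝ≥0∞) ^ e *
          (Fintype.card F : ℝ≥0∞) ^ N ∧
      ∀ Q : Ideal (MvPolynomial (Fin N) F), Q.IsPrime →
        ¬ (I : Set (MvPolynomial (Fin N) F)) ⊆ Q → (∀ i, f i ∈ Q) → ∃ P ∈ T, P ≤ Q := by
  classical
  induction e with
  | zero =>
    refine ⟨fun i => i.elim0, fun i => i.elim0, ?_⟩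
    by_cases h : (I : Set (MvPolynomial (Fin N) F)) ⊆ (⊥ : Ideal (MvPolynomial (Fin N) F))
    · refine ⟨∅, by simp, by simp, ?_⟩
      intro Q _ hQ _
      exact absurd (h.trans (bot_le : (⊥ : Ideal (MvPolynomial (Fin N) F)) ≤ Q)) hQ
    · refine ⟨{⊥}, ?_, ?_, ?_⟩
      · intro P hP
        rw [Finset.mem_singleton] at hP
        rw [hP]
        exact ⟨Ideal.isPrime_bot, h⟩
      · simpa using wgt_bot
      · intro Q _ _ _
        exact ⟨⊥, Finset.mem_singleton_self _, bot_le⟩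
  | succ e ih =>
    obtain ⟨f, hf, T, hT, hw, hcov⟩ := ih
    obtain ⟨f', hf', T', hT', hw', hcov'⟩ := step hD hDq I hI T hT
    refine ⟨Fin.cons f' f, ?_, T', hT', ?_, ?_⟩
    · intro i
      refine Fin.cases ?_ (fun i => ?_) i
      · exact hf'
      · exact hf i
    · calc ((Fintype.card F : ℝ≥0∞) ^ 2) ^ (e + 1) * ∑ P ∈ T', wgt P
          = ((Fintype.card F : ℝ≥0∞) ^ 2) ^ e *
            ((Fintype.card F : ℝ≥0∞) ^ 2 * ∑ P ∈ T', wgt P) := by
            rw [pow_succ, mul_assoc]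
        _ ≤ ((Fintype.card F : ℝ≥0∞) ^ 2) ^ e *
            (((Fintype.card F * D + Fintype.card F - D : ℕ) : ℝ≥0∞) * ∑ P ∈ T, wgt P) := by
            gcongr
        _ = ((Fintype.card F * D + Fintype.card F - D : ℕ) : ℝ≥0∞) *
            (((Fintype.card F : ℝ≥0∞) ^ 2) ^ e * ∑ P ∈ T, wgt P) := by ring
        _ ≤ ((Fintype.card F * D + Fintype.card F - D : ℕ) : ℝ≥0∞) *
            (((Fintype.card F * D + Fintype.card F - D : ℕ) : ℝ≥0∞) ^ e *
              (Fintype.card F : ℝ≥0∞) ^ N) := by gcongr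
        _ = _ := by ring
    · intro Q hQ hIQ hfQ
      refine hcov' Q hQ hIQ ?_ (hcov Q hQ hIQ ?_)
      · exact hfQ 0
      · intro i
        exact hfQ i.succ

/-- the points through which the zero set of the `f i` has a component that is not in the zero set
of `I` -/
def BadPt (I : Submodule F (MvPolynomial (Fin N) F)) {e : ℕ} (f : Fin e → MvPolynomial (Fin N) F) :
    Set (Fin N → F) :=
  {a | ∃ Q : Ideal (MvPolynomial (Fin N) F), Q.IsPrime ∧ (∀ i, f i ∈ Q) ∧
    ¬ (I : Set (MvPolynomial (Fin N) F)) ⊆ Q ∧ Van Q a}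

theorem select {D : ℕ} (hD : 1 ≤ D) (hDq : D ≤ Fintype.card F)
    (I : Submodule F (MvPolynomial (Fin N) F)) [Module.Finite F I]
    (hI : ∀ f ∈ I, f.totalDegree ≤ D) (e : ℕ) :
    ∃ f : Fin e → MvPolynomial (Fin N) F, (∀ i, f i ∈ I) ∧
      (BadPt I f).ncard * (Fintype.card F ^ 2) ^ e ≤
        (Fintype.card F * D + Fintype.card F - D) ^ e * Fintype.card F ^ N := by
  classical
  obtain ⟨f, hf, T, hT, hw, hcov⟩ := select' hD hDq I hI e
  refine ⟨f, hf, ?_⟩
  have h1 : BadPt I f ⊆ ⋃ P ∈ T, {y : Fin N → F | Van P y} := by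
    rintro a ⟨Q, hQ, hfQ, hIQ, hV⟩
    obtain ⟨P, hP, hPQ⟩ := hcov Q hQ hIQ hfQ
    simp only [Set.mem_iUnion]
    exact ⟨P, hP, fun p hp => hV p (hPQ hp)⟩
  have h2 : ((BadPt I f).ncard : ℝ≥0∞) ≤ ∑ P ∈ T, wgt P := by
    have h3 : (BadPt I f).ncard ≤ ∑ P ∈ T, {y : Fin N → F | Van P y}.ncard :=
      (Set.ncard_le_ncard h1 (Set.toFinite _)).trans (Finset.set_ncard_biUnion_le _ _)
    calc ((BadPt I f).ncard : ℝ≥0∞) ≤ ((∑ P ∈ T, {y : Fin N → F | Van P y}.ncard : ℕ) : ℝ≥0∞) := by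
          exact_mod_cast h3
      _ = ∑ P ∈ T, ({y : Fin N → F | Van P y}.ncard : ℝ≥0∞) := by push_cast; rfl
      _ ≤ _ := Finset.sum_le_sum fun P hP => points_le _ P (hT P hP).1 rfl
  have h4 : ((BadPt I f).ncard : ℝ≥0∞) * ((Fintype.card F : ℝ≥0∞) ^ 2) ^ e ≤
      ((Fintype.card F * D + Fintype.card F - D : ℕ) : ℝ≥0∞) ^ e *
          (Fintype.card F : ℝ≥0∞) ^ N := by
    rw [mul_comm]
    exact le_trans (by gcongr) hw
  exact_mod_cast h4

end Pool.Agent.U425.VL
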