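import Pool.Agent.N684.BK.Low
import Pool.Agent.N769.BK.DIM
import Pool.Agent.N769.BK.MULSUM
import Pool.Agent.N861.BK.BEZ
import Pool.Agent.N415.BK.TOP
import Pool.Agent.N738.BK.RAT
import Pool.Agent.N136.BK.RCI

/-!
# The weight of a variety over a finite field and random sections

The weight of a prime ideal `P` of polynomials over the field with `q` elements is
`deg P * q ^ dim P`. It bounds the number of rational points, and it is multiplied at most by `D / q` if
`P` is cut by a polynomial of degree at most `D`.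
-/

set_option autoImplicit false

open MvPolynomial Filter
open scoped ENNReal

namespace Pool.Agent.U425.VL

open Pool.Agent.N684.BK

variable {F : Type} [Field F] {N : ℕ}

/-- the weights which are all one -/
abbrev wo (N : ℕ) : Fin N → ℕ := fun _ => 1

theorem wo_pos (i : Fin N) : 1 ≤ wo N i := le_rfl

theorem wd_wo (m : Fin N →₀ ℕ) : wd (wo N) m = m.degree := by
  unfold wd wo
  rw [Finsupp.degree_eq_sum]
  simp

theorem mem_PW_wo {K : ℕ} {f : MvPolynomial (Fin N) F} (hf : f.totalDegree ≤ K) :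
    f ∈ PW F (wo N) K := by
  rw [PW, mem_restrictSupport_iff]
  intro m hm
  rw [Set.mem_ofPred_eq, wd_wo]
  exact (le_totalDegree' hm).trans hf
where
  le_totalDegree' {f : MvPolynomial (Fin N) F} {m : Fin N →₀ ℕ}
      (hm : m ∈ (f.support : Set (Fin N →₀ ℕ))) : m.degree ≤ f.totalDegree := by
    have := MvPolynomial.le_totalDegree (Finset.mem_coe.1 hm)
    rwa [Finsupp.degree_eq_sum, ← Finsupp.sum_fintype m (fun _ e => e) (fun _ => rfl)]

theorem bez : S_BEZ := Pool.Agent.N861.BK.BEZ.BEZ Pool.Agent.N769.BK.MULSUM.MUL Pool.Agent.N769.BK.MULSUM.SUM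

variable [Fintype F]

/-- the weight of an ideal: degree times `q ^ dim` -/
noncomputable def wgt (P : Ideal (MvPolynomial (Fin N) F)) : ℝ≥0∞ :=
  Deg (wo N) (dimQ P) P * (Fintype.card F : ℝ≥0∞) ^ dimQ P

theorem wgt_bot : wgt (⊥ : Ideal (MvPolynomial (Fin N) F)) ≤ (Fintype.card F : ℝ≥0∞) ^ N := by
  obtain ⟨h1, h2⟩ := Pool.Agent.N415.BK.TOP.TOP F N (wo N) wo_pos
  unfold wgt
  rw [h1]
  have h3 : Deg (wo N) N (⊥ : Ideal (MvPolynomial (Fin N) F)) ≤ 1 := by
    simpa using h2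
  calc _ ≤ 1 * (Fintype.card F : ℝ≥0∞) ^ N := by gcongr
    _ = _ := one_mul _

theorem wgt_cut {D : ℕ} (hD : 1 ≤ D) {P : Ideal (MvPolynomial (Fin N) F)} (hP : P.IsPrime)
    {f : MvPolynomial (Fin N) F} (hf : f ∉ P) (hfd : f.totalDegree ≤ D)
    (s : Finset (Ideal (MvPolynomial (Fin N) F)))
    (hs : ∀ Q ∈ s, Q ∈ (P ⊔ Ideal.span {f}).minimalPrimes) :
    (Fintype.card F : ℝ≥0∞) * ∑ Q ∈ s, wgt Q ≤ (D : ℝ≥0∞) * wgt P := by
  rcases s.eq_empty_or_nonempty with h0 | ⟨Q₀, hQ₀⟩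
  · rw [h0, Finset.sum_empty, mul_zero]
    exact zero_le
  have hdim : ∀ Q ∈ s, dimQ Q + 1 = dimQ P := fun Q hQ =>
    Pool.Agent.N769.BK.DIM.DIM F N P Q f hP hf (hs Q hQ)
  have hw : ∀ Q ∈ s, dimQ Q = dimQ Q₀ := fun Q hQ => by
    have := hdim Q hQ
    have := hdim Q₀ hQ₀
    omega
  have h1 : ∑ Q ∈ s, wgt Q = (∑ Q ∈ s, Deg (wo N) (dimQ Q₀) Q) *
      (Fintype.card F : ℝ≥0∞) ^ dimQ Q₀ := by
    rw [Finset.sum_mul]
    refine Finset.sum_congr rfl fun Q hQ => ?_
    rw [wgt, hw Q hQ]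
  have h2 : ∑ Q ∈ s, Deg (wo N) (dimQ Q₀) Q ≤ (D : ℝ≥0∞) * Deg (wo N) (dimQ Q₀ + 1) P := by
    refine bez F N (wo N) wo_pos _ D P f s hP hf (mem_PW_wo hfd) hD ?_ ?_
    · intro Q hQ
      have h3 := hs Q hQ
      have h4 : P ⊔ Ideal.span {f} ≤ Q := h3.1.2
      exact ⟨h3.1.1, le_sup_left.trans h4, h4 (Ideal.mem_sup_right
        (Ideal.mem_span_singleton_self f))⟩
    · intro Q hQ Q' hQ' hle
      exact le_antisymm hle ((hs Q' hQ').2 (hs Q hQ).1 hle)
  rw [h1, wgt, ← hdim Q₀ hQ₀]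
  calc _ ≤ (Fintype.card F : ℝ≥0∞) * (((D : ℝ≥0∞) * Deg (wo N) (dimQ Q₀ + 1) P) *
        (Fintype.card F : ℝ≥0∞) ^ dimQ Q₀) := by gcongr
    _ = _ := by
      rw [pow_succ]
      ring

theorem points_le : ∀ (d : ℕ) (P : Ideal (MvPolynomial (Fin N) F)), P.IsPrime → dimQ P = d →
    (Set.ncard {y : Fin N → F | Van P y} : ℝ≥0∞) ≤ wgt P := by
  classical
  intro d
  induction d with
  | zero =>
    intro P hP hd
    have h1 : Set.ncard {y : Fin N → F | Van P y} ≤ 1 := by
      rw [Set.ncard_le_one_iff]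
      intro y y' hy hy'
      exact Pool.Agent.N738.BK.RAT.PT F N P y y' hP hd hy hy'
    have h2 := Pool.Agent.N684.BK.LOW F N 1 (wo N) (fun _ => ⟨le_rfl, le_rfl⟩) P hP
    unfold wgt
    rw [hd] at h2 ⊢
    simp only [pow_zero, Nat.cast_one, one_mul, mul_one] at h2 ⊢
    exact le_trans (by exact_mod_cast h1) h2
  | succ d ih =>
    intro P hP hd
    obtain ⟨a, ha⟩ := Pool.Agent.N684.BK.POS F N P hP (by omega)
    have hc : ∀ c : F, (X a - C c : MvPolynomial (Fin N) F) ∉ P := by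
      intro c hmem
      have h1 : Ideal.Quotient.mk P (X a) = algebraMap F _ c := by
        rw [← sub_eq_zero]
        have h2 := Ideal.Quotient.eq_zero_iff_mem.2 hmem
        rw [map_sub] at h2
        exact h2
      rw [h1] at ha
      exact ha (isAlgebraic_algebraMap c)
    have hfin : ∀ c : F, (P ⊔ Ideal.span {(X a - C c : MvPolynomial (Fin N) F)}).minimalPrimes.Finite :=
      fun c => Ideal.finite_minimalPrimes_of_isNoetherianRing _ _
    have h1 : Set.ncard {y : Fin N → F | Van P y} ≤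
        ∑ c : F, ∑ Q ∈ (hfin c).toFinset, Set.ncard {y : Fin N → F | Van Q y} := by
      have h2 : {y : Fin N → F | Van P y} ⊆
          ⋃ c ∈ (Finset.univ : Finset F), ⋃ Q ∈ (hfin c).toFinset, {y : Fin N → F | Van Q y} := by
        intro y hy
        have h4 : P ⊔ Ideal.span {(X a - C (y a) : MvPolynomial (Fin N) F)} ≤
            RingHom.ker (eval y) := by
          apply sup_le
          · intro p hp
            exact hy p hp
          · rw [Ideal.span_singleton_le_iff_mem, RingHom.mem_ker]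
            simp
        have : (RingHom.ker (eval y)).IsPrime := RingHom.ker_isPrime _
        obtain ⟨Q, hQ, hQy⟩ := Ideal.exists_minimalPrimes_le h4
        simp only [Set.mem_iUnion]
        exact ⟨y a, Finset.mem_univ _, Q, (Set.Finite.mem_toFinset _).2 hQ, fun p hp => hQy hp⟩
      calc _ ≤ Set.ncard (⋃ c ∈ (Finset.univ : Finset F),
            ⋃ Q ∈ (hfin c).toFinset, {y : Fin N → F | Van Q y}) :=
            Set.ncard_le_ncard h2 (Set.toFinite _)
        _ ≤ ∑ c : F, Set.ncard (⋃ Q ∈ (hfin c).toFinset, {y : Fin N → F | Van Q y}) :=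
            Finset.set_ncard_biUnion_le _ _
        _ ≤ _ := Finset.sum_le_sum fun c _ => Finset.set_ncard_biUnion_le _ _
    have h2 : ∀ c : F, ((∑ Q ∈ (hfin c).toFinset, Set.ncard {y : Fin N → F | Van Q y} : ℕ) : ℝ≥0∞) ≤
        ∑ Q ∈ (hfin c).toFinset, wgt Q := by
      intro c
      push_cast
      refine Finset.sum_le_sum fun Q hQ => ih Q ?_ ?_
      · exact ((Set.Finite.mem_toFinset _).1 hQ).1.1
      · have := Pool.Agent.N769.BK.DIM.DIM F N P Q _ hP (hc c) ((Set.Finite.mem_toFinset _).1 hQ)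
        omega
    have hq0 : (Fintype.card F : ℝ≥0∞) ≠ 0 := by
      exact_mod_cast Fintype.card_ne_zero
    have hqt : (Fintype.card F : ℝ≥0∞) ≠ ⊤ := ENNReal.natCast_ne_top _
    have h3 : ∀ c : F, (Fintype.card F : ℝ≥0∞) * ∑ Q ∈ (hfin c).toFinset, wgt Q ≤ wgt P := by
      intro c
      have h4 := wgt_cut (D := 1) le_rfl hP (hc c) (by
        refine (totalDegree_sub _ _).trans ?_
        simp) (hfin c).toFinset (fun Q hQ => (Set.Finite.mem_toFinset _).1 hQ)
      simpa using h4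
    have h5 : (Fintype.card F : ℝ≥0∞) * (Set.ncard {y : Fin N → F | Van P y} : ℝ≥0∞) ≤
        (Fintype.card F : ℝ≥0∞) * wgt P := by
      calc _ ≤ (Fintype.card F : ℝ≥0∞) * ((∑ c : F, ∑ Q ∈ (hfin c).toFinset,
            Set.ncard {y : Fin N → F | Van Q y} : ℕ) : ℝ≥0∞) := by gcongr
        _ ≤ (Fintype.card F : ℝ≥0∞) * ∑ c : F, ∑ Q ∈ (hfin c).toFinset, wgt Q := by
          gcongr
          rw [Nat.cast_sum]
          exact Finset.sum_le_sum fun c _ => h2 c
        _ = ∑ c : F, (Fintype.card F : ℝ≥0∞) * ∑ Q ∈ (hfin c).toFinset, wgt Q :=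
          Finset.mul_sum _ _ _
        _ ≤ ∑ _c : F, wgt P := Finset.sum_le_sum fun c _ => h3 c
        _ = _ := by rw [Finset.sum_const, Finset.card_univ, nsmul_eq_mul]
    exact (ENNReal.mul_le_mul_iff_right hq0 hqt).1 h5

end Pool.Agent.U425.VL
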